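import Pool.Agent.R535.LG.PolyG
import Pool.Agent.H527R2.SharpP

/-!
# Counting with unit moves
-/

namespace Pool.Agent.NPC.LG535

open Pool.Agent.NPC Filter Topology

/-! ### unit moves -/

/-- All moves have advance `1` and total length `3`. -/
def Unit1 (mv : List Mv) : Prop := ∀ m ∈ mv, m.c = 1 ∧ m.p = 2

/-- Some move is possible at `n`. -/
def Hit (mv : List Mv) (n : ℕ) : Prop := ∃ m ∈ mv, n ≡ m.r [MOD m.M]

instance (mv : List Mv) (n : ℕ) : Decidable (Hit mv n) := by
  unfold Hit
  exact List.decidableBEx _ _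

/-- The start times. -/
def cnt (mv : List Mv) (n : ℕ) : ℕ := ∑ j ∈ Finset.Ico 1 n, if Hit mv j then 3 else 1

theorem cnt_succ (mv : List Mv) {n : ℕ} (hn : 1 ≤ n) :
    cnt mv (n + 1) = cnt mv n + if Hit mv n then 3 else 1 := by
  unfold cnt
  rw [Finset.sum_Ico_succ_top hn]

theorem earliest_cnt {b : Bool} {mv : List Mv} (hok : ∀ m ∈ mv, m.Ok) (hu : Unit1 mv)
    (hb : b = true → ∀ m ∈ mv, m.c ≤ m.M) {n : ℕ} (hn : 1 ≤ n) :
    (mkGraph b mv).earliest 0 n = cnt mv n := by
  apply le_antisymm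
  · refine earliest_zero_le hok hb (A := fun n => (cnt mv n : ℝ)) ⟨fun n _ => Nat.cast_nonneg _,
      fun n hn => ?_, fun m hm n hn h => ?_⟩ hn
    · simp only
      rw [cnt_succ mv hn]
      have : (1 : ℕ) ≤ if Hit mv n then 3 else 1 := by split_ifs <;> omega
      exact_mod_cast Nat.add_le_add_left this _
    · obtain ⟨h1, h2⟩ := hu m hm
      simp only
      rw [h1, h2, cnt_succ mv hn, if_pos ⟨m, hm, h⟩]
      push_cast
      linarith
  · have hA := adm_earliest hok hb
    induction n, hn using Nat.le_induction with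
    | base =>
      have := hA.1 1 le_rfl
      simpa [cnt] using this
    | succ n hn ih =>
      rw [cnt_succ mv hn]
      by_cases h : Hit mv n
      · rw [if_pos h]
        obtain ⟨m, hm, hmod⟩ := h
        have h1 := hA.2.2 m hm n hn hmod
        obtain ⟨h2, h3⟩ := hu m hm
        rw [h2, h3] at h1
        push_cast at h1 ⊢
        linarith
      · rw [if_neg h]
        have := hA.2.1 n hn
        push_cast
        linarith

theorem cnt_period {mv : List Mv} {Q : ℕ} (hQ : ∀ n, Hit mv (n + Q) ↔ Hit mv n) (k : ℕ) :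
    cnt mv (1 + Q * k) = k * cnt mv (1 + Q) := by
  have hadd : ∀ k m : ℕ, 1 ≤ m → cnt mv (m + Q * k) = cnt mv (1 + Q * k) + cnt mv m := by
    intro k m hm
    have hper : ∀ n, Hit mv (n + Q * k) ↔ Hit mv n := by
      intro n
      induction k with
      | zero => simp
      | succ k ih => rw [Nat.mul_succ, ← add_assoc, hQ, ih]
    induction m, hm using Nat.le_induction with
    | base => simp [cnt]
    | succ m hm ih =>
      rw [show m + 1 + Q * k = m + Q * k + 1 by ring, cnt_succ mv (by omega), cnt_succ mv hm, ih]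
      simp only [hper]
      ring
  induction k with
  | zero => simp [cnt]
  | succ k ih =>
    rw [show 1 + Q * (k + 1) = 1 + Q + Q * k by ring, hadd k (1 + Q) (by omega), ih]
    ring

theorem cnt_eq {mv : List Mv} (Q : ℕ) :
    cnt mv (1 + Q) + 2 * ((Finset.Ico 1 (1 + Q)).filter fun n => ¬ Hit mv n).card = 3 * Q := by
  have h1 : cnt mv (1 + Q) = 3 * ((Finset.Ico 1 (1 + Q)).filter fun n => Hit mv n).card +
      ((Finset.Ico 1 (1 + Q)).filter fun n => ¬ Hit mv n).card := by
    unfold cnt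
    rw [Finset.sum_ite]
    simp only [Finset.sum_const, smul_eq_mul]
    ring
  have h2 : ((Finset.Ico 1 (1 + Q)).filter fun n => Hit mv n).card +
      ((Finset.Ico 1 (1 + Q)).filter fun n => ¬ Hit mv n).card = Q := by
    rw [Finset.card_filter_add_card_filter_not, Nat.card_Ico]
    omega
  omega

theorem freq_cnt {b : Bool} {mv : List Mv} (hok : ∀ m ∈ mv, m.Ok) (hu : Unit1 mv)
    (hb : b = true → ∀ m ∈ mv, m.c ≤ m.M) {Q : ℕ} (hQ0 : 0 < Q)
    (hQ : ∀ n, Hit mv (n + Q) ↔ Hit mv n) :
    (mkGraph b mv).IsFreq 0 (Q / cnt mv (1 + Q)) := by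
  have hpos : 0 < cnt mv (1 + Q) := by
    have h1 : ((Finset.Ico 1 (1 + Q)).filter fun n => ¬ Hit mv n).card ≤ Q := by
      refine (Finset.card_filter_le _ _).trans ?_
      rw [Nat.card_Ico]
      omega
    have h2 := cnt_eq (mv := mv) Q
    omega
  have hpos' : (0 : ℝ) < cnt mv (1 + Q) := by exact_mod_cast hpos
  have hQ' : (0 : ℝ) < Q := by exact_mod_cast hQ0
  have h1 : Tendsto (fun k : ℕ => (mkGraph b mv).earliest 0 (1 + Q * k) / k) atTop
      (𝓝 (cnt mv (1 + Q) : ℝ)) := by
    refine tendsto_const_nhds.congr' ((eventually_ge_atTop 1).mono fun k hk => ?_)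
    have hk' : (0 : ℝ) < k := by exact_mod_cast hk
    simp only
    rw [earliest_cnt hok hu hb (by omega), cnt_period hQ]
    push_cast
    rw [mul_div_cancel_left₀ _ hk'.ne']
  have hA := adm_earliest hok hb
  have h2 := tendsto_of_arith hQ0 hpos'.le hA.1 (fun m n hm h => hA.mono hm h) h1
  have h3 := freq_zero hok hb (div_pos hpos' hQ') h2
  rwa [inv_div] at h3

end Pool.Agent.NPC.LG535
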