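import Mathlib

/-!
# Chinese remaindering with explicit idempotents
-/

namespace Pool.Agent.NPC.LG535

/-- Moduli `p t` and idempotents `E t` for `t < N`. -/
structure Crt (N : ℕ) where
  p : ℕ → ℕ
  E : ℕ → ℕ
  Q : ℕ
  one_lt : ∀ t < N, 1 < p t
  co : ∀ s < N, ∀ t < N, s ≠ t → Nat.Coprime (p s) (p t)
  E1 : ∀ t < N, E t ≡ 1 [MOD p t]
  E0 : ∀ s < N, ∀ t < N, s ≠ t → E s ≡ 0 [MOD p t]
  Q_eq : Q = ((List.range N).map p).prod

namespace Crt

variable {N : ℕ} (D : Crt N)

theorem Q_pos : 0 < D.Q := by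
  rw [D.Q_eq]
  refine List.prod_pos ?_
  intro x hx
  obtain ⟨t, ht, rfl⟩ := List.mem_map.1 hx
  have := D.one_lt t (List.mem_range.1 ht)
  omega

theorem dvd_Q {t : ℕ} (ht : t < N) : D.p t ∣ D.Q := by
  rw [D.Q_eq]
  exact List.dvd_prod (List.mem_map_of_mem (List.mem_range.2 ht))

theorem modEq_Q {a b : ℕ} (h : ∀ t < N, a ≡ b [MOD D.p t]) : a ≡ b [MOD D.Q] := by
  rw [D.Q_eq]
  refine (Nat.modEq_list_map_prod_iff ?_).2 fun t ht => h t (List.mem_range.1 ht)
  refine List.Pairwise.imp_of_mem ?_ (List.nodup_range (n := N))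
  intro a b ha hb hab
  exact D.co a (List.mem_range.1 ha) b (List.mem_range.1 hb) hab

/-- The modulus of a list of pairs (index, value). -/
def md (l : List (ℕ × ℕ)) : ℕ := (l.map fun y => D.p y.1).prod

/-- The combination of a list of pairs (index, value). -/
def cmb (l : List (ℕ × ℕ)) : ℕ := (l.map fun y => y.2 * D.E y.1).sum

/-- The residue in `[1, M]`. -/
def rs (l : List (ℕ × ℕ)) : ℕ := if D.cmb l % D.md l = 0 then D.md l else D.cmb l % D.md l

/-- indices below `N`, each at most once. -/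
def Wf (N : ℕ) {α : Type*} (l : List (ℕ × α)) : Prop :=
  (∀ y ∈ l, y.1 < N) ∧ (l.map Prod.fst).Nodup

theorem cmb_of_notMem {l : List (ℕ × ℕ)} (hl : ∀ y ∈ l, y.1 < N) {t : ℕ} (ht : t < N)
    (h : t ∉ l.map Prod.fst) : D.cmb l ≡ 0 [MOD D.p t] := by
  induction l with
  | nil => exact Nat.ModEq.refl _
  | cons y l ih =>
    simp only [List.map_cons, List.mem_cons, not_or] at h
    have h1 := ih (fun z hz => hl z (List.mem_cons_of_mem _ hz)) h.2
    have h2 := D.E0 y.1 (hl y (by simp)) t ht (Ne.symm h.1)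
    have h3 := (h2.mul_left y.2).add h1
    simpa [cmb] using h3

theorem cmb_of_mem {l : List (ℕ × ℕ)} (hl : Wf N l) {y : ℕ × ℕ} (hy : y ∈ l) :
    D.cmb l ≡ y.2 [MOD D.p y.1] := by
  obtain ⟨hl, hnd⟩ := hl
  induction l with
  | nil => simp at hy
  | cons z l ih =>
    simp only [List.map_cons, List.nodup_cons] at hnd
    have hl' : ∀ y ∈ l, y.1 < N := fun z hz => hl z (List.mem_cons_of_mem _ hz)
    rcases List.mem_cons.1 hy with rfl | hy'
    · have h1 := D.cmb_of_notMem hl' (hl y (by simp)) hnd.1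
      have h2 := D.E1 y.1 (hl y (by simp))
      have h3 := (h2.mul_left y.2).add h1
      simpa [cmb] using h3
    · have h1 := ih hy' hl' hnd.2
      have hne : z.1 ≠ y.1 := by
        intro h
        exact hnd.1 (h ▸ List.mem_map_of_mem (f := Prod.fst) hy')
      have h2 := D.E0 z.1 (hl z (by simp)) y.1 (hl y (by simp [hy'])) hne
      have h3 := (h2.mul_left z.2).add h1
      simpa [cmb] using h3

theorem md_pos {l : List (ℕ × ℕ)} (hl : ∀ y ∈ l, y.1 < N) : 0 < D.md l := by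
  refine List.prod_pos ?_
  intro x hx
  obtain ⟨t, ht, rfl⟩ := List.mem_map.1 hx
  have := D.one_lt t.1 (hl t ht)
  omega

theorem rs_pos {l : List (ℕ × ℕ)} (hl : ∀ y ∈ l, y.1 < N) : 1 ≤ D.rs l := by
  unfold rs
  have := D.md_pos hl
  split_ifs <;> omega

theorem rs_le {l : List (ℕ × ℕ)} (hl : ∀ y ∈ l, y.1 < N) : D.rs l ≤ D.md l := by
  unfold rs
  have := D.md_pos hl
  have h2 := Nat.mod_lt (D.cmb l) this
  split_ifs <;> omega

theorem rs_modEq (l : List (ℕ × ℕ)) : D.rs l ≡ D.cmb l [MOD D.md l] := by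
  unfold rs
  split_ifs with h
  · unfold Nat.ModEq
    rw [Nat.mod_self, h]
  · exact Nat.mod_modEq _ _

theorem modEq_rs {l : List (ℕ × ℕ)} (hl : Wf N l) {n : ℕ} :
    n ≡ D.rs l [MOD D.md l] ↔ ∀ y ∈ l, n ≡ y.2 [MOD D.p y.1] := by
  have h1 : n ≡ D.rs l [MOD D.md l] ↔ n ≡ D.cmb l [MOD D.md l] :=
    ⟨fun h => h.trans (D.rs_modEq l), fun h => h.trans (D.rs_modEq l).symm⟩
  rw [h1]
  unfold md
  rw [Nat.modEq_list_map_prod_iff]
  · constructor
    · intro h y hy
      exact (h y hy).trans (D.cmb_of_mem hl hy)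
    · intro h y hy
      exact (h y hy).trans (D.cmb_of_mem hl hy).symm
  · have := List.pairwise_map.1 hl.2
    refine List.Pairwise.imp_of_mem ?_ this
    intro a b ha hb hab
    exact D.co _ (hl.1 a ha) _ (hl.1 b hb) hab

/-- Existence of solutions. -/
theorem exists_modEq (f : ℕ → ℕ) : ∃ n, 1 ≤ n ∧ ∀ t < N, n ≡ f t [MOD D.p t] := by
  set l := (List.range N).map fun t => (t, f t) with hl
  have hwf : Wf N l := by
    constructor
    · intro y hy
      obtain ⟨t, ht, rfl⟩ := List.mem_map.1 hy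
      exact List.mem_range.1 ht
    · rw [hl, List.map_map]
      have : (Prod.fst ∘ fun t => (t, f t)) = id := rfl
      rw [this, List.map_id]
      exact List.nodup_range
  refine ⟨D.rs l, D.rs_pos hwf.1, fun t ht => ?_⟩
  exact (D.modEq_rs hwf).1 (Nat.ModEq.refl _) (t, f t)
    (List.mem_map.2 ⟨t, List.mem_range.2 ht, rfl⟩)

end Crt

end Pool.Agent.NPC.LG535
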