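import Pool.Agent.R535.LG.Crt
import Pool.Agent.H741R2.PWPoly
import Pool.Agent.H527R2.UniP
import Pool.Agent.H578R2.Med.PP
import Pool.Agent.H671R2.PolyAuto

/-!
# Concrete moduli: primes, computed in polynomial time
-/

namespace Pool.Agent.NPC.LG535

open Pool.Agent.NPC Pool.Agent.H741R2.PW

/-- A bound for `N` primes above `K`. -/
def Bd (N K : ℕ) : ℕ := 2 * ((N + K + 1) * (N + K + 1)) + 1

/-- `N` primes above `K`. -/
def prs (N K : ℕ) : List ℕ := (primesIn K (Bd N K)).take N

/-- The `t`-th prime. -/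
def pr (N K t : ℕ) : ℕ := (prs N K).getD t 2

theorem prs_length (N K : ℕ) : (prs N K).length = N := by
  unfold prs
  rw [List.length_take]
  exact min_eq_left (primesIn_length N K)

theorem pr_mem {N K t : ℕ} (ht : t < N) : pr N K t ∈ prs N K := by
  unfold pr
  rw [List.getD_eq_getElem _ _ (by rw [prs_length]; exact ht)]
  exact List.getElem_mem _

theorem pr_prop {N K t : ℕ} (ht : t < N) : pr N K t < Bd N K ∧ K < pr N K t ∧ (pr N K t).Prime :=
  mem_primesIn.1 (List.mem_of_mem_take (pr_mem ht))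

theorem pr_ne {N K s t : ℕ} (hs : s < N) (ht : t < N) (h : s ≠ t) : pr N K s ≠ pr N K t := by
  intro he
  unfold pr at he
  rw [List.getD_eq_getElem _ _ (by rw [prs_length]; exact hs),
    List.getD_eq_getElem _ _ (by rw [prs_length]; exact ht)] at he
  have hnd : (prs N K).Nodup := (primesIn_nodup _ _).sublist (List.take_sublist _ _)
  exact h ((List.Nodup.getElem_inj_iff hnd).1 he)

/-- The product of the primes. -/
def Qprod (N K : ℕ) : ℕ := (prs N K).prod

theorem Qprod_eq (N K : ℕ) : Qprod N K = ((List.range N).map (pr N K)).prod := by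
  unfold Qprod
  congr 1
  refine List.ext_getElem (by rw [prs_length, List.length_map, List.length_range]) ?_
  intro i h1 h2
  rw [List.getElem_map, List.getElem_range]
  unfold pr
  rw [List.getD_eq_getElem _ _ h1]

/-- The idempotents. -/
def Ee (N K t : ℕ) : ℕ := (Qprod N K / pr N K t) ^ (min (pr N K t) (Bd N K) - 1)

theorem Ee_eq {N K t : ℕ} (ht : t < N) : Ee N K t = (Qprod N K / pr N K t) ^ (pr N K t - 1) := by
  unfold Ee
  rw [min_eq_left (pr_prop ht).1.le]

theorem pr_dvd {N K t : ℕ} (ht : t < N) : pr N K t ∣ Qprod N K := List.dvd_prod (pr_mem ht)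

theorem pr_dvd_div {N K s t : ℕ} (hs : s < N) (ht : t < N) (h : s ≠ t) :
    pr N K t ∣ Qprod N K / pr N K s := by
  have h1 : pr N K t ∣ pr N K s * (Qprod N K / pr N K s) := by
    rw [Nat.mul_div_cancel' (pr_dvd hs)]
    exact pr_dvd ht
  have h2 : Nat.Coprime (pr N K t) (pr N K s) :=
    (Nat.coprime_primes (pr_prop ht).2.2 (pr_prop hs).2.2).2 (pr_ne ht hs h.symm)
  exact h2.dvd_of_dvd_mul_left h1

theorem prod_eraseIdx_eq {l : List ℕ} {t : ℕ} (ht : t < l.length) (h0 : 0 < l[t]) :
    l.prod / l[t] = (l.eraseIdx t).prod := by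
  have h : l.prod = l[t] * (l.eraseIdx t).prod := (List.getElem_cons_eraseIdx_perm ht).prod_eq.symm
  rw [h, Nat.mul_div_cancel_left _ h0]

theorem coprime_div {N K t : ℕ} (ht : t < N) : Nat.Coprime (pr N K t) (Qprod N K / pr N K t) := by
  have hl : t < (prs N K).length := by rw [prs_length]; exact ht
  have he : pr N K t = (prs N K)[t] := by unfold pr; rw [List.getD_eq_getElem _ _ hl]
  have hp := (pr_prop (K := K) ht).2.2
  have h0 : 0 < (prs N K)[t] := by rw [← he]; exact hp.pos
  have : Qprod N K / pr N K t = ((prs N K).eraseIdx t).prod := by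
    rw [he]
    exact prod_eraseIdx_eq hl h0
  rw [this]
  refine Nat.coprime_list_prod_right_iff.2 fun x hx => ?_
  obtain ⟨i, hi, hne, hx⟩ := List.mem_eraseIdx_iff_getElem.1 hx
  have hi' : i < N := by rwa [prs_length] at hi
  have hxi : x = pr N K i := by unfold pr; rw [List.getD_eq_getElem _ _ hi, hx]
  rw [hxi]
  exact (Nat.coprime_primes hp (pr_prop hi').2.2).2 (pr_ne ht hi' (Ne.symm hne))

/-- The Chinese remaindering data. -/
def crt (N K : ℕ) : Crt N where
  p := pr N K
  E := Ee N K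
  Q := Qprod N K
  one_lt t ht := (pr_prop ht).2.2.one_lt
  co s hs t ht h := (Nat.coprime_primes (pr_prop hs).2.2 (pr_prop ht).2.2).2 (pr_ne hs ht h)
  E1 t ht := by
    rw [Ee_eq ht]
    have hp := (pr_prop (K := K) ht).2.2
    have h := Nat.ModEq.pow_totient (n := pr N K t) (x := Qprod N K / pr N K t)
      (coprime_div ht).symm
    rwa [Nat.totient_prime hp] at h
  E0 s hs t ht h := by
    rw [Ee_eq hs]
    have hp := (pr_prop (K := K) hs).2.2
    rw [Nat.modEq_zero_iff_dvd]
    exact dvd_pow (pr_dvd_div hs ht h) (by have := hp.one_lt; omega)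
  Q_eq := Qprod_eq N K

theorem K_lt_p {N K t : ℕ} (ht : t < N) : K < (crt N K).p t := (pr_prop ht).2.1

section poly

variable {α : Type} [TEnc α] {N K : α → ℕ}

theorem Bd_poly (hN : UPoly N) (hK : UPoly K) : UPoly (fun a => Bd (N a) (K a)) := by
  have h : UPoly (fun a => N a + K a + 1) := UPoly.add (UPoly.add hN hK) (UPoly.const 1)
  exact UPoly.add (UPoly.mul (UPoly.const 2) (UPoly.mul h h)) (UPoly.const 1)

theorem prs_poly (hN : UPoly N) (hK : UPoly K) : Poly (fun a => prs (N a) (K a)) :=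
  Med.poly_take (primesIn_poly hK.toPoly (Bd_poly hN hK)) hN.toPoly

theorem Qprod_poly (hN : UPoly N) (hK : UPoly K) : Poly (fun a => Qprod (N a) (K a)) :=
  Uc.poly_prod (prs_poly hN hK)

theorem pr_poly (hN : UPoly N) (hK : UPoly K) {t : α → ℕ} (ht : Poly t) :
    Poly (fun a => pr (N a) (K a) (t a)) :=
  Poly.getD (prs_poly hN hK) ht (Poly.const 2)

theorem Ee_poly (hN : UPoly N) (hK : UPoly K) {t : α → ℕ} (ht : Poly t) :
    Poly (fun a => Ee (N a) (K a) (t a)) := by
  have h1 := pr_poly hN hK ht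
  have h2 := Bd_poly hN hK
  have h3 : UPoly (fun a => min (pr (N a) (K a) (t a)) (Bd (N a) (K a)) - 1) :=
    UPoly.of_le (Poly.sub (Poly.min h1 h2.toPoly) (Poly.const 1)) h2
      (fun a => (Nat.sub_le _ _).trans (min_le_right _ _))
  exact Uc.poly_upow h3 (Poly.div (Qprod_poly hN hK) h1)

theorem md_poly (hN : UPoly N) (hK : UPoly K) {l : α → List (ℕ × ℕ)} (hl : Poly l) :
    Poly (fun a => (crt (N a) (K a)).md (l a)) := by
  unfold Crt.md
  refine Uc.poly_prod (Poly.map (F := fun a y => (crt (N a) (K a)).p y.1) hl ?_)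
  exact pr_poly (hN.comp (Poly.fst Poly.id)) (hK.comp (Poly.fst Poly.id))
    (Poly.fst (Poly.snd Poly.id))

theorem cmb_poly (hN : UPoly N) (hK : UPoly K) {l : α → List (ℕ × ℕ)} (hl : Poly l) :
    Poly (fun a => (crt (N a) (K a)).cmb (l a)) := by
  unfold Crt.cmb
  refine Poly.sum (Poly.map (F := fun a y => y.2 * (crt (N a) (K a)).E y.1) hl ?_)
  exact Poly.mul (Poly.snd (Poly.snd Poly.id))
    (Ee_poly (hN.comp (Poly.fst Poly.id)) (hK.comp (Poly.fst Poly.id))
    (Poly.fst (Poly.snd Poly.id)))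

theorem rs_poly (hN : UPoly N) (hK : UPoly K) {l : α → List (ℕ × ℕ)} (hl : Poly l) :
    Poly (fun a => (crt (N a) (K a)).rs (l a)) := by
  unfold Crt.rs
  have h1 := md_poly hN hK hl
  have h2 := Poly.mod (cmb_poly hN hK hl) h1
  exact Poly.ite (Poly.decide_eq h2 (Poly.const 0)) h1 h2

end poly

end Pool.Agent.NPC.LG535
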