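import Mathlib
import Pool.Agent.NPC.Classes

/-!
# Linear graphs (cyclic scheduling with linear precedence constraints)
-/

namespace Pool.Agent.NPC.LG535

open Pool.Agent.NPC Filter Topology

/-- An arc `(i, j)` of a linear graph, with its four integers `α'`, `h'`, `α`, `h`. -/
structure Arc where
  /-- the tail `i` -/
  src : ℕ
  /-- the head `j` -/
  dst : ℕ
  /-- the coefficient `α'` of the tail -/
  a' : ℕ
  /-- the shift `h'` of the tail -/
  h' : ℤ
  /-- the coefficient `α` of the head -/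
  a : ℕ
  /-- the shift `h` of the head -/
  h : ℤ

/-- A linear graph: the list of the processing times of the generic tasks `0, ..., n - 1`, and the
list of the arcs. -/
structure LinGraph where
  /-- processing times -/
  p : List ℕ
  /-- arcs -/
  arcs : List Arc

/-- The code of an arc. -/
def Arc.code (e : Arc) : ℕ × ℕ × ℕ × ℤ × ℕ × ℤ := (e.src, e.dst, e.a', e.h', e.a, e.h)

theorem Arc.code_injective : Function.Injective Arc.code := by
  rintro ⟨⟩ ⟨⟩ h
  simp only [Arc.code, Prod.mk.injEq] at h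
  obtain ⟨rfl, rfl, rfl, rfl, rfl, rfl⟩ := h
  rfl

/-- All integers are written in binary. -/
instance : TEnc Arc := ⟨fun e => toT e.code, fun _ _ h => Arc.code_injective (TEnc.inj h)⟩

/-- The code of a linear graph. -/
def LinGraph.code (G : LinGraph) : List ℕ × List Arc := (G.p, G.arcs)

theorem LinGraph.code_injective : Function.Injective LinGraph.code := by
  rintro ⟨⟩ ⟨⟩ h
  simp only [LinGraph.code, Prod.mk.injEq] at h
  obtain ⟨rfl, rfl⟩ := h
  rfl

/-- All integers are written in binary. -/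
instance : TEnc LinGraph :=
  ⟨fun G => toT G.code, fun _ _ h => LinGraph.code_injective (TEnc.inj h)⟩

namespace LinGraph

/-- The number of generic tasks; the tasks are `0, ..., n - 1`. -/
def n (G : LinGraph) : ℕ := G.p.length

/-- The processing time of the task `i`. -/
def time (G : LinGraph) (i : ℕ) : ℕ := G.p.getD i 0

/-- Processing times are positive, arcs join tasks, `α` and `α'` are positive. -/
def Valid (G : LinGraph) : Prop :=
  (∀ x ∈ G.p, 0 < x) ∧ ∀ e ∈ G.arcs, e.src < G.n ∧ e.dst < G.n ∧ 0 < e.a' ∧ 0 < e.a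

/-- `t i k` is the start time of the occurrence `⟨i, k⟩`, `k ≥ 1`; `t` is a schedule if for each
arc `(i, j)` and `k > 0`, `t (i, α' k + h') + p_i ≤ t (j, α k + h)` whenever both indices are at
least `1`. -/
def IsSchedule (G : LinGraph) (t : ℕ → ℕ → ℝ) : Prop :=
  (∀ i < G.n, ∀ k, 1 ≤ k → 0 ≤ t i k) ∧
    ∀ e ∈ G.arcs, ∀ k : ℕ, 0 < k → ∀ u v : ℕ, 1 ≤ u → 1 ≤ v →
      (u : ℤ) = e.a' * k + e.h' → (v : ℤ) = e.a * k + e.h → t e.src u + G.time e.src ≤ t e.dst v

/-- A linear graph is consistent if some schedule satisfies all constraints. -/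
def Consistent (G : LinGraph) : Prop := ∃ t, G.IsSchedule t

/-- The earliest schedule: the infimum of the start times over all schedules. -/
noncomputable def earliest (G : LinGraph) (i k : ℕ) : ℝ := sInf {x | ∃ t, G.IsSchedule t ∧ t i k = x}

/-- `φ` is the frequency of the task `i`: the (positive, finite) limit of `k / t (i, k)` in the
earliest schedule. -/
def IsFreq (G : LinGraph) (i : ℕ) (φ : ℝ) : Prop :=
  0 < φ ∧ Tendsto (fun k : ℕ => (k : ℝ) / G.earliest i k) atTop (𝓝 φ)

/-- There is a walk from `i` to `j`; the last argument is its weight, the product of the `α / α'`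
of its arcs. -/
inductive Walk (G : LinGraph) : ℕ → ℕ → ℚ → Prop
  | nil (i : ℕ) : Walk G i i 1
  | cons (e : Arc) (j : ℕ) (w : ℚ) (he : e ∈ G.arcs) (h : Walk G e.dst j w) :
      Walk G e.src j ((e.a : ℚ) / e.a' * w)

/-- A linear graph is unitary if it is strongly connected and every circuit has weight `1`. -/
def Unitary (G : LinGraph) : Prop :=
  (∀ i < G.n, ∀ j < G.n, ∃ w, G.Walk i j w) ∧ ∀ i w, G.Walk i i w → w = 1

/-- Two successive occurrences of a task never overlap: each task `i` carries the uniform loop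
`t (i, k) + p_i ≤ t (i, k + 1)`. -/
def NonReentrant (G : LinGraph) : Prop := ∀ i < G.n, (⟨i, i, 1, 0, 1, 1⟩ : Arc) ∈ G.arcs

/-- The earliest schedule is indeed a schedule. -/
theorem earliest_isSchedule {G : LinGraph} (hv : G.Valid) (hc : G.Consistent) :
    G.IsSchedule G.earliest := by
  obtain ⟨t₀, ht₀⟩ := hc
  have hbdd : ∀ i < G.n, ∀ k, 1 ≤ k → BddBelow {x | ∃ t, G.IsSchedule t ∧ t i k = x} := by
    intro i hi k hk
    refine ⟨0, ?_⟩
    rintro x ⟨t, ht, rfl⟩
    exact ht.1 i hi k hk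
  refine ⟨fun i hi k hk => ?_, fun e he k hk u v hu hv' h1 h2 => ?_⟩
  · refine le_csInf ⟨_, t₀, ht₀, rfl⟩ ?_
    rintro x ⟨t, ht, rfl⟩
    exact ht.1 i hi k hk
  · refine le_csInf ⟨_, t₀, ht₀, rfl⟩ ?_
    rintro x ⟨t, ht, rfl⟩
    have h3 := ht.2 e he k hk u v hu hv' h1 h2
    have h4 : G.earliest e.src u ≤ t e.src u :=
      csInf_le (hbdd _ (hv.2 e he).1 u hu) ⟨t, ht, rfl⟩
    linarith

/-- The earliest schedule is pointwise below every schedule. -/
theorem earliest_le {G : LinGraph} {t : ℕ → ℕ → ℝ} (ht : G.IsSchedule t) {i k : ℕ} (hi : i < G.n)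
    (hk : 1 ≤ k) : G.earliest i k ≤ t i k := by
  refine csInf_le ⟨0, ?_⟩ ⟨t, ht, rfl⟩
  rintro x ⟨t, ht, rfl⟩
  exact ht.1 i hi k hk

theorem IsFreq.unique {G : LinGraph} {i : ℕ} {φ ψ : ℝ} (h : G.IsFreq i φ) (h' : G.IsFreq i ψ) :
    φ = ψ := tendsto_nhds_unique h.2 h'.2

end LinGraph

end Pool.Agent.NPC.LG535
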