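import Pool.Agent.R535.LG.Gadget

/-!
# The graph of a list of moves is unitary, and all its frequencies exist
-/

namespace Pool.Agent.NPC.LG535

open Pool.Agent.NPC Filter Topology

variable {b : Bool} {mv : List Mv}

/-- The potentials of the tasks. -/
def pot (mv : List Mv) (i : ℕ) : ℚ :=
  match i with
  | 0 => 1
  | i + 1 => match mv[i]? with
    | none => 1
    | some m => 1 / m.M

theorem pot_pos (hok : ∀ m ∈ mv, m.Ok) (i : ℕ) : 0 < pot mv i := by
  rcases i with _ | i
  · exact one_pos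
  · rcases h : mv[i]? with _ | m
    · simp [pot, h]
    · have := (hok m (List.mem_of_getElem? h)).1
      simp only [pot, h]
      positivity

theorem walk_pot (hok : ∀ m ∈ mv, m.Ok) {i j : ℕ} {w : ℚ} (h : (mkGraph b mv).Walk i j w) :
    w * pot mv i = pot mv j := by
  induction h with
  | nil i => rw [one_mul]
  | cons e j w he h ih =>
    rw [← ih]
    rw [mem_arcs] at he
    rcases he with rfl | ⟨i, m, hi, he⟩
    · simp only [Nat.cast_one, div_one, one_mul]
    · have hM := (hok m (List.mem_of_getElem? hi)).1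
      have hM' : (m.M : ℚ) ≠ 0 := by exact_mod_cast hM.ne'
      rcases he with rfl | rfl | ⟨hbt, rfl⟩
      · simp only [pot, hi, Nat.cast_one]
        ring
      · simp only [pot, hi, Nat.cast_one]
        field_simp
      · simp only [Nat.cast_one, div_one, one_mul]

theorem walk_trans {G : LinGraph} {i j k : ℕ} {w w' : ℚ} (h : G.Walk i j w) (h' : G.Walk j k w') :
    ∃ w'', G.Walk i k w'' := by
  induction h with
  | nil i => exact ⟨_, h'⟩
  | cons e j w he h ih =>
    obtain ⟨w'', h''⟩ := ih h'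
    exact ⟨_, LinGraph.Walk.cons e _ _ he h''⟩

theorem walk_one {G : LinGraph} {e : Arc} (he : e ∈ G.arcs) : ∃ w, G.Walk e.src e.dst w :=
  ⟨_, LinGraph.Walk.cons e _ _ he (LinGraph.Walk.nil _)⟩

theorem unitary_mk (hok : ∀ m ∈ mv, m.Ok) : (mkGraph b mv).Unitary := by
  constructor
  · have h1 : ∀ i < (mkGraph b mv).n, ∃ w, (mkGraph b mv).Walk i 0 w := by
      intro i hi
      rw [n_mkGraph] at hi
      rcases i with _ | i
      · exact ⟨_, LinGraph.Walk.nil 0⟩
      · have hm : mv[i]? = some mv[i] := List.getElem?_eq_getElem (by omega)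
        exact walk_one (e := ⟨i + 1, 0, 1, 0, mv[i].M, (mv[i].r : ℤ) - mv[i].M + mv[i].c⟩)
          (mem_arcs.2 (Or.inr ⟨i, _, hm, Or.inr (Or.inl rfl)⟩))
    have h2 : ∀ i < (mkGraph b mv).n, ∃ w, (mkGraph b mv).Walk 0 i w := by
      intro i hi
      rw [n_mkGraph] at hi
      rcases i with _ | i
      · exact ⟨_, LinGraph.Walk.nil 0⟩
      · have hm : mv[i]? = some mv[i] := List.getElem?_eq_getElem (by omega)
        exact walk_one (e := ⟨0, i + 1, mv[i].M, (mv[i].r : ℤ) - mv[i].M, 1, 0⟩)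
          (mem_arcs.2 (Or.inr ⟨i, _, hm, Or.inl rfl⟩))
    intro i hi j hj
    obtain ⟨w, hw⟩ := h1 i hi
    obtain ⟨w', hw'⟩ := h2 j hj
    exact walk_trans hw hw'
  · intro i w hw
    have h := walk_pot hok hw
    have h' := pot_pos hok i
    field_simp at h
    linarith

/-- A common multiple of the moduli. -/
def PP (mv : List Mv) : ℕ := (mv.map fun m => m.M).prod

theorem PP_pos (hok : ∀ m ∈ mv, m.Ok) : 0 < PP mv := by
  unfold PP
  refine List.prod_pos ?_
  intro x hx
  obtain ⟨m, hm, rfl⟩ := List.mem_map.1 hx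
  exact (hok m hm).1

theorem dvd_PP {m : Mv} (hm : m ∈ mv) : m.M ∣ PP mv :=
  List.dvd_prod (List.mem_map_of_mem (f := fun m : Mv => m.M) hm)

theorem Adm.shift {A : ℕ → ℝ} (hA : Adm mv A) {P : ℕ} (hP : ∀ m ∈ mv, m.M ∣ P) :
    Adm mv (fun n => A (n + P) - A (1 + P)) := by
  refine ⟨fun n hn => ?_, fun n hn => ?_, fun m hm n hn h => ?_⟩
  · have h := hA.grow (n := 1 + P) (by omega) (n - 1)
    rw [show 1 + P + (n - 1) = n + P by omega] at h
    have h0 : (0 : ℝ) ≤ ((n - 1 : ℕ) : ℝ) := Nat.cast_nonneg _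
    simp only
    linarith
  · have h := hA.2.1 (n + P) (by omega)
    rw [show n + P + 1 = n + 1 + P by omega] at h
    simp only
    linarith
  · have h' := hA.2.2 m hm (n + P) (by omega) (by
      have h2 : P ≡ 0 [MOD m.M] := (Nat.modEq_zero_iff_dvd).2 (hP m hm)
      simpa using h.add h2)
    rw [show n + P + m.c = n + m.c + P by omega] at h'
    simp only
    linarith

/-- a limit along an arithmetic progression. -/
theorem tendsto_of_arith {B : ℕ → ℝ} {P : ℕ} (hP : 0 < P) {L : ℝ} (hL : 0 ≤ L)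
    (h0 : ∀ n, 1 ≤ n → 0 ≤ B n)
    (hmono : ∀ m n, 1 ≤ m → m ≤ n → B m ≤ B n)
    (h : Tendsto (fun k : ℕ => B (1 + P * k) / k) atTop (𝓝 L)) :
    Tendsto (fun n : ℕ => B n / n) atTop (𝓝 (L / P)) := by
  have hP' : (0 : ℝ) < P := by exact_mod_cast hP
  -- the quotient index
  set κ : ℕ → ℕ := fun n => (n - 1) / P with hκ
  have hκ1 : ∀ n, 1 ≤ n → 1 + P * κ n ≤ n := by
    intro n hn
    have := Nat.mul_div_le (n - 1) P
    simp only [hκ]
    omega
  have hκ2 : ∀ n, 1 ≤ n → n ≤ 1 + P * (κ n + 1) := by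
    intro n hn
    have := Nat.lt_mul_div_succ (n - 1) hP
    simp only [hκ]
    omega
  have hκt : Tendsto κ atTop atTop := by
    refine tendsto_atTop.2 fun N => ?_
    refine (eventually_ge_atTop (1 + P * N)).mono fun n hn => ?_
    simp only [hκ]
    rw [Nat.le_div_iff_mul_le hP]
    rw [mul_comm]
    omega
  have hr : Tendsto (fun n : ℕ => (κ n : ℝ) / n) atTop (𝓝 (1 / P)) := by
    have hlow : Tendsto (fun n : ℕ => 1 / (P : ℝ) - (1 / P + 1) / n) atTop (𝓝 (1 / P - 0)) :=
      tendsto_const_nhds.sub (tendsto_const_div_atTop_nhds_zero_nat _)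
    rw [sub_zero] at hlow
    refine tendsto_of_tendsto_of_tendsto_of_le_of_le' hlow tendsto_const_nhds ?_ ?_
    · refine (eventually_ge_atTop 1).mono fun n hn => ?_
      have h1 : (n : ℝ) ≤ 1 + P * (κ n + 1) := by exact_mod_cast hκ2 n hn
      have hn' : (0 : ℝ) < n := by exact_mod_cast hn
      rw [sub_le_iff_le_add, ← add_div, le_div_iff₀ hn']
      have : 1 / (P : ℝ) * n ≤ 1 / P * (1 + P * (κ n + 1)) :=
        mul_le_mul_of_nonneg_left h1 (by positivity)
      have h3 : 1 / (P : ℝ) * (1 + P * (κ n + 1)) = κ n + (1 / P + 1) := by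
        field_simp
        ring
      linarith
    · refine (eventually_ge_atTop 1).mono fun n hn => ?_
      have h1 : 1 + (P : ℝ) * κ n ≤ n := by exact_mod_cast hκ1 n hn
      have hn' : (0 : ℝ) < n := by exact_mod_cast hn
      rw [div_le_div_iff₀ hn' hP']
      linarith
  have hr2 : Tendsto (fun n : ℕ => ((κ n : ℝ) + 1) / n) atTop (𝓝 (1 / P)) := by
    have : Tendsto (fun n : ℕ => (κ n : ℝ) / n + 1 / n) atTop (𝓝 (1 / P + 0)) :=
      hr.add (tendsto_const_div_atTop_nhds_zero_nat _)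
    rw [add_zero] at this
    refine this.congr fun n => ?_
    rw [add_div]
  have hlo : Tendsto (fun n : ℕ => B (1 + P * κ n) / (κ n : ℝ) * ((κ n : ℝ) / n)) atTop
      (𝓝 (L * (1 / P))) := (h.comp hκt).mul hr
  have hhi : Tendsto (fun n : ℕ => B (1 + P * (κ n + 1)) / ((κ n : ℝ) + 1) *
      (((κ n : ℝ) + 1) / n)) atTop (𝓝 (L * (1 / P))) := by
    have h1 : Tendsto (fun n : ℕ => κ n + 1) atTop atTop :=
      tendsto_atTop_mono (fun n => Nat.le_succ _) hκt
    have h2 := h.comp h1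
    have h3 : Tendsto (fun n : ℕ => B (1 + P * (κ n + 1)) / ((κ n : ℝ) + 1)) atTop (𝓝 L) := by
      refine h2.congr fun n => ?_
      simp
    exact h3.mul hr2
  rw [show L / (P : ℝ) = L * (1 / P) by ring]
  refine tendsto_of_tendsto_of_tendsto_of_le_of_le' hlo hhi ?_ ?_
  · filter_upwards [eventually_ge_atTop 1, hκt.eventually_ge_atTop 1] with n hn hk
    have hn' : (0 : ℝ) < n := by exact_mod_cast hn
    have hk' : (0 : ℝ) < κ n := by exact_mod_cast hk
    rw [div_mul_div_comm, mul_comm (B _), mul_div_mul_left _ _ hk'.ne']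
    exact div_le_div_of_nonneg_right (hmono _ _ (by omega) (hκ1 n hn)) hn'.le
  · filter_upwards [eventually_ge_atTop 1] with n hn
    have hn' : (0 : ℝ) < n := by exact_mod_cast hn
    have hk' : (0 : ℝ) < (κ n : ℝ) + 1 := by positivity
    rw [div_mul_div_comm, mul_comm (B _), mul_div_mul_left _ _ hk'.ne']
    exact div_le_div_of_nonneg_right (hmono _ _ hn (hκ2 n hn)) hn'.le

section earliest

variable (hok : ∀ m ∈ mv, m.Ok) (hb : b = true → ∀ m ∈ mv, m.c ≤ m.M)

include hok hb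

theorem exists_rate : ∃ ℓ : ℝ, 0 < ℓ ∧
    Tendsto (fun n : ℕ => (mkGraph b mv).earliest 0 n / n) atTop (𝓝 ℓ) := by
  set B := (mkGraph b mv).earliest 0 with hB
  have hA : Adm mv B := adm_earliest hok hb
  set P := PP mv with hP
  have hPpos : 0 < P := PP_pos hok
  have hPr : (0 : ℝ) < P := by exact_mod_cast hPpos
  have hsup : ∀ m n : ℕ, B (1 + P * m) + B (1 + P * n) ≤ B (1 + P * (m + n)) := by
    intro m n
    have hs := hA.shift (P := P * n) (fun x hx => (dvd_PP hx).mul_right n)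
    have := earliest_zero_le hok hb hs (n := 1 + P * m) (by omega)
    rw [← hB] at this
    rw [show 1 + P * (m + n) = 1 + P * m + P * n by ring]
    linarith
  set u : ℕ → ℝ := fun k => - B (1 + P * k) with hu
  have hsub : Subadditive u := by
    intro m n
    have := hsup m n
    simp only [hu]
    linarith
  obtain ⟨C, hC, hCA⟩ := exists_adm mv hok
  have hbd : BddBelow (Set.range fun n : ℕ => u n / n) := by
    refine ⟨-(C * (1 + P)), ?_⟩
    rintro x ⟨n, rfl⟩
    simp only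
    rcases Nat.eq_zero_or_pos n with rfl | hn
    · simp only [Nat.cast_zero, div_zero]
      have : 0 ≤ C * (1 + P) := by positivity
      linarith
    · have h1 := earliest_zero_le hok hb hCA (n := 1 + P * n) (by omega)
      rw [← hB] at h1
      push_cast at h1
      have hn' : (0 : ℝ) < n := by exact_mod_cast hn
      have hn1 : (1 : ℝ) ≤ n := by exact_mod_cast hn
      rw [le_div_iff₀ hn']
      simp only [hu]
      nlinarith
  have hlim := hsub.tendsto_lim hbd
  have h1 : Tendsto (fun k : ℕ => B (1 + P * k) / k) atTop (𝓝 (-hsub.lim)) := by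
    refine hlim.neg.congr fun k => ?_
    simp only [hu]
    ring
  have hge : (P : ℝ) ≤ -hsub.lim := by
    refine ge_of_tendsto h1 ((eventually_ge_atTop 1).mono fun k hk => ?_)
    have hk' : (0 : ℝ) < k := by exact_mod_cast hk
    rw [le_div_iff₀ hk']
    have h2 := hA.grow (n := 1) le_rfl (P * k)
    have h3 := hA.1 1 le_rfl
    push_cast at h2
    linarith
  refine ⟨-hsub.lim / P, div_pos (by linarith) hPr, ?_⟩
  exact tendsto_of_arith hPpos (by linarith) hA.1 (fun m n hm h => hA.mono hm h) h1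

theorem freq_zero {ℓ : ℝ} (hℓ : 0 < ℓ)
    (h : Tendsto (fun n : ℕ => (mkGraph b mv).earliest 0 n / n) atTop (𝓝 ℓ)) :
    (mkGraph b mv).IsFreq 0 ℓ⁻¹ := by
  refine ⟨inv_pos.2 hℓ, (h.inv₀ hℓ.ne').congr fun n => ?_⟩
  rw [inv_div]

theorem freq_succ {ℓ : ℝ} (hℓ : 0 < ℓ)
    (h : Tendsto (fun n : ℕ => (mkGraph b mv).earliest 0 n / n) atTop (𝓝 ℓ)) {i : ℕ} {m : Mv}
    (hi : mv[i]? = some m) : (mkGraph b mv).IsFreq (i + 1) (ℓ * m.M)⁻¹ := by
  have hokm := hok m (List.mem_of_getElem? hi)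
  have hM : (0 : ℝ) < m.M := by exact_mod_cast hokm.1
  refine ⟨inv_pos.2 (mul_pos hℓ hM), ?_⟩
  set B := (mkGraph b mv).earliest 0 with hB
  have hlin : Tendsto (fun k : ℕ => m.M * (k - 1) + m.r) atTop atTop := by
    refine tendsto_atTop.2 fun N => ?_
    refine (eventually_ge_atTop (N + 1)).mono fun k hk => ?_
    have h1 : 1 * (k - 1) ≤ m.M * (k - 1) := Nat.mul_le_mul_right _ hokm.1
    omega
  have h2 : Tendsto (fun k : ℕ => ((m.M * (k - 1) + m.r : ℕ) : ℝ) / k) atTop (𝓝 (m.M : ℝ)) := by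
    have h3 : Tendsto (fun k : ℕ => (m.M : ℝ) + ((m.r : ℝ) - m.M) / k) atTop (𝓝 (m.M + 0)) :=
      tendsto_const_nhds.add (tendsto_const_div_atTop_nhds_zero_nat _)
    rw [add_zero] at h3
    refine h3.congr' ((eventually_ge_atTop 1).mono fun k hk => ?_)
    have hk' : (k : ℝ) ≠ 0 := by
      have : (0 : ℝ) < k := by exact_mod_cast hk
      exact this.ne'
    push_cast [Nat.cast_sub hk]
    field_simp
    ring
  have h4 : Tendsto (fun k : ℕ => B (m.M * (k - 1) + m.r) / ((m.M * (k - 1) + m.r : ℕ) : ℝ) *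
      (((m.M * (k - 1) + m.r : ℕ) : ℝ) / k) + 1 / k) atTop (𝓝 (ℓ * m.M + 0)) :=
    ((h.comp hlin).mul h2).add (tendsto_const_div_atTop_nhds_zero_nat _)
  rw [add_zero] at h4
  have h5 : Tendsto (fun k : ℕ => (mkGraph b mv).earliest (i + 1) k / k) atTop
      (𝓝 (ℓ * m.M)) := by
    refine h4.congr' ((eventually_ge_atTop 1).mono fun k hk => ?_)
    simp only
    rw [earliest_succ hok hb hi hk, ← hB]
    have hpos : (0 : ℝ) < ((m.M * (k - 1) + m.r : ℕ) : ℝ) := by
      have := hokm.2.1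
      exact_mod_cast (by omega : 0 < m.M * (k - 1) + m.r)
    rw [div_mul_div_cancel₀ hpos.ne', add_div]
  refine (h5.inv₀ (mul_pos hℓ hM).ne').congr fun k => ?_
  rw [inv_div]

/-- All frequencies exist. -/
theorem freq_exist : ∀ i < (mkGraph b mv).n, ∃ φ, (mkGraph b mv).IsFreq i φ := by
  obtain ⟨ℓ, hℓ, h⟩ := exists_rate hok hb
  intro i hi
  rw [n_mkGraph] at hi
  rcases i with _ | i
  · exact ⟨_, freq_zero hok hb hℓ h⟩
  · exact ⟨_, freq_succ hok hb hℓ h (List.getElem?_eq_getElem (by omega : i < mv.length))⟩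

end earliest

end Pool.Agent.NPC.LG535
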