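import Pool.Agent.R535.LG.Defs

/-!
# The graph of a list of moves
-/

namespace Pool.Agent.NPC.LG535

open Pool.Agent.NPC Filter Topology

/-- A move `n ↦ n + c`, possible for `n ≡ r` modulo `M`, of total length `1 + p`. -/
structure Mv where
  M : ℕ
  r : ℕ
  c : ℕ
  p : ℕ

/-- Well-formed moves. -/
def Mv.Ok (m : Mv) : Prop := 0 < m.M ∧ 1 ≤ m.r ∧ m.r ≤ m.M ∧ 0 < m.c ∧ 0 < m.p

/-- The arcs of the task `i + 1`, for the `i`-th move. -/
def mvArcs (b : Bool) (m : Mv) (i : ℕ) : List Arc :=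
  [⟨0, i + 1, m.M, (m.r : ℤ) - m.M, 1, 0⟩, ⟨i + 1, 0, 1, 0, m.M, (m.r : ℤ) - m.M + m.c⟩] ++
    if b then [⟨i + 1, i + 1, 1, 0, 1, 1⟩] else []

/-- The graph of a list of moves. -/
def mkGraph (b : Bool) (mv : List Mv) : LinGraph :=
  ⟨1 :: mv.map (fun m => m.p),
    ⟨0, 0, 1, 0, 1, 1⟩ :: mv.zipIdx.flatMap (fun x => mvArcs b x.1 x.2)⟩

variable {b : Bool} {mv : List Mv}

theorem n_mkGraph : (mkGraph b mv).n = mv.length + 1 := by
  simp [mkGraph, LinGraph.n]

theorem time_zero : (mkGraph b mv).time 0 = 1 := rfl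

theorem time_succ {i : ℕ} {m : Mv} (h : mv[i]? = some m) : (mkGraph b mv).time (i + 1) = m.p := by
  simp [mkGraph, LinGraph.time, h]

theorem mem_arcs {e : Arc} : e ∈ (mkGraph b mv).arcs ↔ e = ⟨0, 0, 1, 0, 1, 1⟩ ∨
    ∃ i m, mv[i]? = some m ∧ (e = ⟨0, i + 1, m.M, (m.r : ℤ) - m.M, 1, 0⟩ ∨
      e = ⟨i + 1, 0, 1, 0, m.M, (m.r : ℤ) - m.M + m.c⟩ ∨
      (b = true ∧ e = ⟨i + 1, i + 1, 1, 0, 1, 1⟩)) := by
  unfold mkGraph
  simp only [List.mem_cons, List.mem_flatMap, Prod.exists, List.mk_mem_zipIdx_iff_getElem?]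
  refine or_congr_right ?_
  constructor
  · rintro ⟨m, i, h, he⟩
    refine ⟨i, m, h, ?_⟩
    cases b <;> simp_all [mvArcs]
  · rintro ⟨i, m, h, he⟩
    refine ⟨m, i, h, ?_⟩
    cases b <;> simp_all [mvArcs]

theorem valid_mk (hok : ∀ m ∈ mv, m.Ok) : (mkGraph b mv).Valid := by
  constructor
  · intro x hx
    simp only [mkGraph, List.mem_cons, List.mem_map] at hx
    rcases hx with rfl | ⟨m, hm, rfl⟩
    · exact Nat.one_pos
    · exact (hok m hm).2.2.2.2
  · intro e he
    rw [n_mkGraph]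
    rw [mem_arcs] at he
    rcases he with rfl | ⟨i, m, hi, he⟩
    · exact ⟨by simp, by simp, by simp, by simp⟩
    · have hl : i < mv.length := (List.getElem?_eq_some_iff.1 hi).1
      have hM := (hok m (List.mem_of_getElem? hi)).1
      rcases he with rfl | rfl | ⟨-, rfl⟩ <;> refine ⟨?_, ?_, ?_, ?_⟩ <;> simp <;> omega

/-- The conditions on the start times of the task `0`. -/
def Adm (mv : List Mv) (A : ℕ → ℝ) : Prop :=
  (∀ n, 1 ≤ n → 0 ≤ A n) ∧ (∀ n, 1 ≤ n → A n + 1 ≤ A (n + 1)) ∧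
    ∀ m ∈ mv, ∀ n, 1 ≤ n → n ≡ m.r [MOD m.M] → A n + 1 + m.p ≤ A (n + m.c)

theorem index_of_modEq {m : Mv} (hm : m.Ok) {n : ℕ} (hn : 1 ≤ n) (h : n ≡ m.r [MOD m.M]) :
    ∃ k, 1 ≤ k ∧ n = m.M * (k - 1) + m.r := by
  obtain ⟨h1, h2, h3, -, -⟩ := hm
  have hle : m.r ≤ n := by
    by_contra hlt
    have h4 : n % m.M = n := Nat.mod_eq_of_lt (by omega)
    have h5 : n % m.M = m.r % m.M := h
    rcases Nat.lt_or_ge m.r m.M with h6 | h6
    · rw [h4, Nat.mod_eq_of_lt h6] at h5
      omega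
    · have : m.r = m.M := le_antisymm h3 h6
      rw [h4, this, Nat.mod_self] at h5
      omega
  obtain ⟨q, hq⟩ := (Nat.modEq_iff_dvd' hle).1 h.symm
  refine ⟨q + 1, by omega, ?_⟩
  rw [Nat.add_sub_cancel, ← hq]
  omega

theorem adm_of_schedule (hok : ∀ m ∈ mv, m.Ok) {t : ℕ → ℕ → ℝ}
    (ht : (mkGraph b mv).IsSchedule t) :
    Adm mv (t 0) ∧ ∀ i m, mv[i]? = some m → ∀ k, 1 ≤ k →
      t 0 (m.M * (k - 1) + m.r) + 1 ≤ t (i + 1) k := by
  have hA : ∀ i m, mv[i]? = some m → ∀ k, 1 ≤ k →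
      t 0 (m.M * (k - 1) + m.r) + 1 ≤ t (i + 1) k := by
    intro i m hi k hk
    obtain ⟨j, rfl⟩ : ∃ j, k = j + 1 := ⟨k - 1, by omega⟩
    have hr := (hok m (List.mem_of_getElem? hi)).2.1
    have := ht.2 _ (mem_arcs.2 (Or.inr ⟨i, m, hi, Or.inl rfl⟩)) (j + 1) (by omega)
      (m.M * (j + 1 - 1) + m.r) (j + 1) (by omega) (by omega)
      (by rw [Nat.add_sub_cancel]; push_cast; ring) (by simp)
    rw [show (mkGraph b mv).time 0 = 1 from rfl] at this
    simpa using this
  refine ⟨⟨fun n hn => ht.1 0 (by rw [n_mkGraph]; omega) n hn, fun n hn => ?_,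
    fun m hm n hn hmod => ?_⟩, hA⟩
  · have := ht.2 _ (mem_arcs.2 (Or.inl rfl)) n (by omega) n (n + 1) hn (by omega) (by simp)
      (by simp)
    rw [show (mkGraph b mv).time 0 = 1 from rfl] at this
    simpa using this
  · obtain ⟨i, hi⟩ := List.getElem?_of_mem hm
    obtain ⟨k, hk, rfl⟩ := index_of_modEq (hok m hm) hn hmod
    obtain ⟨j, rfl⟩ : ∃ j, k = j + 1 := ⟨k - 1, by omega⟩
    have h1 := hA i m hi (j + 1) hk
    have h2 := ht.2 _ (mem_arcs.2 (Or.inr ⟨i, m, hi, Or.inr (Or.inl rfl)⟩)) (j + 1) (by omega)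
      (j + 1) (m.M * (j + 1 - 1) + m.r + m.c) (by omega) (by omega)
      (by simp) (by rw [Nat.add_sub_cancel]; push_cast; ring)
    simp only [time_succ hi] at h2
    linarith

/-- The schedule with given start times for the task `0`. -/
def mkSched (mv : List Mv) (A : ℕ → ℝ) (i k : ℕ) : ℝ :=
  match i with
  | 0 => A k
  | i + 1 => match mv[i]? with
    | none => 0
    | some m => A (m.M * (k - 1) + m.r) + 1

theorem Adm.grow {A : ℕ → ℝ} (hA : Adm mv A) {n : ℕ} (hn : 1 ≤ n) (d : ℕ) : A n + d ≤ A (n + d) := by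
  induction d with
  | zero => simp
  | succ d ih =>
    have := hA.2.1 (n + d) (by omega)
    push_cast
    rw [← add_assoc n d 1]
    linarith

theorem Adm.mono {A : ℕ → ℝ} (hA : Adm mv A) {m n : ℕ} (hm : 1 ≤ m) (h : m ≤ n) : A m ≤ A n := by
  have h1 := hA.grow hm (n - m)
  rw [Nat.add_sub_cancel' h] at h1
  have h0 : (0 : ℝ) ≤ ((n - m : ℕ) : ℝ) := Nat.cast_nonneg _
  linarith

theorem isSchedule_mkSched (hok : ∀ m ∈ mv, m.Ok) (hb : b = true → ∀ m ∈ mv, m.c ≤ m.M)
    {A : ℕ → ℝ} (hA : Adm mv A) : (mkGraph b mv).IsSchedule (mkSched mv A) := by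
  constructor
  · intro i hi k hk
    rw [n_mkGraph] at hi
    rcases i with _ | i
    · exact hA.1 k hk
    · obtain ⟨m, hm⟩ : ∃ m, mv[i]? = some m := ⟨mv[i], List.getElem?_eq_getElem (by omega)⟩
      have hr := (hok m (List.mem_of_getElem? hm)).2.1
      simp only [mkSched, hm]
      have := hA.1 (m.M * (k - 1) + m.r) (by omega)
      linarith
  · intro e he k hk u v hu hv h1 h2
    rw [mem_arcs] at he
    rcases he with rfl | ⟨i, m, hi, he⟩
    · simp only [Nat.cast_one, one_mul, add_zero] at h1 h2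
      have h3 : u = k := by exact_mod_cast h1
      have h4 : v = k + 1 := by exact_mod_cast h2
      subst h3 h4
      simp only [mkSched, time_zero, Nat.cast_one]
      exact hA.2.1 u hu
    · have hokm := hok m (List.mem_of_getElem? hi)
      obtain ⟨j, rfl⟩ : ∃ j, k = j + 1 := ⟨k - 1, by omega⟩
      rcases he with rfl | rfl | ⟨hbt, rfl⟩
      · simp only [Nat.cast_one, one_mul, add_zero] at h1 h2
        have h3 : u = m.M * j + m.r := by
          have : (u : ℤ) = ((m.M * j + m.r : ℕ) : ℤ) := by rw [h1]; push_cast; ring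
          exact_mod_cast this
        have h4 : v = j + 1 := by exact_mod_cast h2
        subst h3 h4
        simp only [mkSched, time_zero, hi, Nat.cast_one, Nat.add_sub_cancel]
        exact le_rfl
      · simp only [Nat.cast_one, one_mul, add_zero] at h1 h2
        have h3 : u = j + 1 := by exact_mod_cast h1
        have h4 : v = m.M * j + m.r + m.c := by
          have : (v : ℤ) = ((m.M * j + m.r + m.c : ℕ) : ℤ) := by rw [h2]; push_cast; ring
          exact_mod_cast this
        subst h3 h4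
        simp only [time_succ hi]
        simp only [mkSched, hi, Nat.add_sub_cancel]
        exact hA.2.2 m (List.mem_of_getElem? hi) _ (by have := hokm.2.1; omega)
          (by simp [Nat.ModEq])
      · simp only [Nat.cast_one, one_mul, add_zero] at h1 h2
        have h3 : u = j + 1 := by exact_mod_cast h1
        have h4 : v = j + 1 + 1 := by exact_mod_cast h2
        subst h3 h4
        simp only [time_succ hi]
        simp only [mkSched, hi, Nat.add_sub_cancel]
        have h5 := hA.2.2 m (List.mem_of_getElem? hi) (m.M * j + m.r)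
          (by have := hokm.2.1; omega) (by simp [Nat.ModEq])
        have h6 := hb hbt m (List.mem_of_getElem? hi)
        have h7 := hA.mono (m := m.M * j + m.r + m.c) (n := m.M * j + m.r + m.M)
          (by have := hokm.2.1; omega) (by omega)
        rw [show m.M * (j + 1) + m.r = m.M * j + m.r + m.M by ring]
        linarith

/-- A linear bound. -/
theorem exists_adm (mv : List Mv) (hok : ∀ m ∈ mv, m.Ok) :
    ∃ C : ℝ, 0 < C ∧ Adm mv (fun n => C * n) := by
  have hC : ∃ C : ℝ, 1 ≤ C ∧ ∀ m ∈ mv, 1 + (m.p : ℝ) ≤ C := by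
    clear hok
    induction mv with
    | nil => exact ⟨1, le_rfl, by simp⟩
    | cons m mv ih =>
      obtain ⟨C, h1, h2⟩ := ih
      refine ⟨max C (1 + m.p), le_max_of_le_left h1, ?_⟩
      intro m' hm'
      rcases List.mem_cons.1 hm' with rfl | h
      · exact le_max_right _ _
      · exact (h2 m' h).trans (le_max_left _ _)
  obtain ⟨C, h1, h2⟩ := hC
  refine ⟨C, by linarith, fun n _ => by positivity, fun n _ => ?_, fun m hm n _ _ => ?_⟩
  · push_cast
    nlinarith
  · have hc : (1 : ℝ) ≤ m.c := by exact_mod_cast (hok m hm).2.2.2.1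
    have h3 := h2 m hm
    push_cast
    nlinarith

theorem consistent_mk (hok : ∀ m ∈ mv, m.Ok) (hb : b = true → ∀ m ∈ mv, m.c ≤ m.M) :
    (mkGraph b mv).Consistent := by
  obtain ⟨C, -, hC⟩ := exists_adm mv hok
  exact ⟨_, isSchedule_mkSched hok hb hC⟩

section earliest

variable (hok : ∀ m ∈ mv, m.Ok) (hb : b = true → ∀ m ∈ mv, m.c ≤ m.M)

include hok hb

theorem adm_earliest : Adm mv ((mkGraph b mv).earliest 0) :=
  (adm_of_schedule hok (LinGraph.earliest_isSchedule (valid_mk hok) (consistent_mk hok hb))).1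

theorem earliest_zero_le {A : ℕ → ℝ} (hA : Adm mv A) {n : ℕ} (hn : 1 ≤ n) :
    (mkGraph b mv).earliest 0 n ≤ A n :=
  LinGraph.earliest_le (isSchedule_mkSched hok hb hA) (by rw [n_mkGraph]; omega) hn

theorem earliest_succ {i : ℕ} {m : Mv} (hi : mv[i]? = some m) {k : ℕ} (hk : 1 ≤ k) :
    (mkGraph b mv).earliest (i + 1) k = (mkGraph b mv).earliest 0 (m.M * (k - 1) + m.r) + 1 := by
  apply le_antisymm
  · have h := LinGraph.earliest_le (isSchedule_mkSched hok hb (adm_earliest hok hb))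
      (i := i + 1) (by rw [n_mkGraph]; have := (List.getElem?_eq_some_iff.1 hi).1; omega) hk
    simpa only [mkSched, hi] using h
  · exact (adm_of_schedule hok
      (LinGraph.earliest_isSchedule (valid_mk hok) (consistent_mk hok hb))).2 i m hi k hk

theorem earliest_one : (mkGraph b mv).earliest 0 1 = 0 := by
  apply le_antisymm _ ((adm_earliest hok hb).1 1 le_rfl)
  set B := (mkGraph b mv).earliest 0 with hB
  have hA := adm_earliest hok hb
  have h : Adm mv (fun n => B n - B 1) := by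
    refine ⟨fun n hn => ?_, fun n hn => ?_, fun m hm n hn h => ?_⟩
    · have := hA.grow (n := 1) le_rfl (n - 1)
      rw [show 1 + (n - 1) = n by omega] at this
      have h0 : (0 : ℝ) ≤ ((n - 1 : ℕ) : ℝ) := Nat.cast_nonneg _
      simp only
      linarith
    · have := hA.2.1 n hn
      simp only
      linarith
    · have := hA.2.2 m hm n hn h
      simp only
      linarith
  have := earliest_zero_le hok hb h (n := 1) le_rfl
  simpa using this

end earliest

end Pool.Agent.NPC.LG535
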