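import Pool.Agent.R535.LG.Sharp

/-!
# Hardness of computing the frequencies
-/

namespace Pool.Agent.NPC.LG535

open Pool.Agent.NPC Pool.Agent.NPC.Cnt Filter Topology Pool.Agent.H623R2.PS

/-- The well-behaved inputs: unitary consistent linear graphs all of whose frequencies exist. -/
def Nice (G : LinGraph) : Prop :=
  G.Valid ∧ G.Unitary ∧ G.Consistent ∧ ∀ j < G.n, ∃ φ, G.IsFreq j φ

theorem nice_mk {b : Bool} {mv : List Mv} (hok : ∀ m ∈ mv, m.Ok)
    (hb : b = true → ∀ m ∈ mv, m.c ≤ m.M) : Nice (mkGraph b mv) :=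
  ⟨valid_mk hok, unitary_mk hok, consistent_mk hok hb, freq_exist hok hb⟩

/-- Every problem of `PSPACE` is decided by a frequency. -/
theorem hard_pspace {L : Set (List Bool)} (hL : InPSPACE L) :
    ∃ f : List Bool → LinGraph, Poly f ∧ ∀ x, Nice (f x) ∧ 0 < (f x).n ∧
      ∀ φ, (f x).IsFreq 0 φ → (x ∈ L ↔ φ < 1 / 3) := by
  obtain ⟨S, hS, hU, hwf, hiff⟩ := pspace_rules hL
  refine ⟨fun x => mkGraph false (mvs (S x)), mkGraph_poly false (mvs_poly hS hU), fun x =>
    ⟨nice_mk (mvs_ok _) (by simp), by rw [n_mkGraph]; omega, fun φ hφ => ?_⟩⟩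
  rw [freq_iff (hwf x) hφ, hiff x]

/-- The threshold. -/
noncomputable def bnd (φ : CNF ℕ) (s : ℕ) : ℕ := 3 * QQ φ - 2 * s

theorem thr_iff {φ : CNF ℕ} {s : ℕ} {x : ℝ} (hx : (mkGraph true (cm φ)).IsFreq 0 x) :
    s ≤ satCount φ ↔ 0 < bnd φ s ∧ (QQ φ : ℝ) / bnd φ s ≤ x := by
  have h1 := hx.unique (freq_satCount φ)
  have h2 := satCount_le φ
  have h3 := QQ_pos φ
  rw [h1]
  set S := satCount φ
  set Q := QQ φ
  have hQ : (0 : ℝ) < Q := by exact_mod_cast h3
  have hpos : 0 < 3 * Q - 2 * S := by omega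
  have hpos' : (0 : ℝ) < ((3 * Q - 2 * S : ℕ) : ℝ) := by exact_mod_cast hpos
  unfold bnd
  by_cases hb : 0 < 3 * Q - 2 * s
  · have hb' : (0 : ℝ) < ((3 * Q - 2 * s : ℕ) : ℝ) := by exact_mod_cast hb
    rw [and_iff_right hb, div_le_div_iff_of_pos_left hQ hb' hpos', Nat.cast_le]
    omega
  · constructor
    · intro h
      omega
    · rintro ⟨h, _⟩
      exact absurd h hb

/-- Every problem of `PP` is decided by a frequency of a non-reentrant graph. -/
theorem hard_pp {L : Set (List Bool)} (hL : Med.InPPc L) :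
    ∃ (f : List Bool → LinGraph) (a b : List Bool → ℕ), Poly f ∧ Poly a ∧ Poly b ∧
      ∀ x, Nice (f x) ∧ (f x).NonReentrant ∧ 0 < (f x).n ∧ (∀ q ∈ (f x).p, q ≤ 2) ∧
        ∀ φ, (f x).IsFreq 0 φ → (x ∈ L ↔ 0 < b x ∧ (a x : ℝ) / b x ≤ φ) := by
  obtain ⟨V, p, hV, hL⟩ := hL
  obtain ⟨g, hg, hgs⟩ := parsimonious hV p
  have hg' : Poly g := PC.comp hg pc_raw
  have hp : UPoly (fun x : List Bool => p.eval x.length) := UPoly.eval (UPoly.length Poly.id) p
  have h2p : Poly (fun x : List Bool => 2 ^ p.eval x.length) := Uc.poly_upow hp (Poly.const 2)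
  have hs : Poly (fun x : List Bool => 2 ^ p.eval x.length / 2 + 1) :=
    Poly.add (Poly.div h2p (Poly.const 2)) (Poly.const 1)
  have hQ : Poly (fun x => QQ (g x)) := poly_QQ.comp hg'
  refine ⟨fun x => mkGraph true (cm (g x)), fun x => QQ (g x),
    fun x => bnd (g x) (2 ^ p.eval x.length / 2 + 1), mkGraph_poly true (poly_cm.comp hg'), hQ,
    Poly.sub (Poly.mul (Poly.const 3) hQ) (Poly.mul (Poly.const 2) hs), fun x => ?_⟩
  refine ⟨nice_mk (cm_ok _) (fun _ => cm_loop _), nonReentrant_mk _,
    by rw [n_mkGraph]; omega, ?_, fun φ hφ => ?_⟩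
  · intro q hq
    simp only [mkGraph, List.mem_cons, List.mem_map] at hq
    rcases hq with rfl | ⟨m, hm, rfl⟩
    · norm_num
    · exact ((cm_unit _ m hm).2).le
  · rw [← thr_iff hφ, hgs x, hL x]
    omega

/-- The string function `N` computes all frequencies of all graphs of the class `Pr`; the answer
is the list of the frequencies, written as fractions. -/
def Computes (Pr : LinGraph → Prop) (N : List Bool → List Bool) : Prop :=
  ∀ G, Pr G → ∃ l : List (ℕ × ℕ), N (bits G) = bits l ∧ l.length = G.n ∧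
    ∀ i (hi : i < l.length), G.IsFreq i ((l[i].1 : ℝ) / l[i].2)

/-- The first frequency in the answer. -/
def ans (N : List Bool → List Bool) (G : LinGraph) : ℕ × ℕ :=
  ((unbits (List (ℕ × ℕ)) (N (bits G))).getD []).getD 0 (0, 0)

theorem poly_ans {α : Type} [TEnc α] {N : List Bool → List Bool} (hN : PolyTime N)
    {f : α → LinGraph} (hf : Poly f) : Poly (fun a => ans N (f a)) := by
  unfold ans
  have h1 : Poly (fun a => bits (f a)) :=
    PC.comp (g := fun x => x) (f := fun a => bits (f a)) PC.rawIn hf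
  have h2 : Poly (fun a => N (bits (f a))) := (Med.poly_of_polyTime hN).comp h1
  exact Poly.getD (Poly.optGetD (poly_unbits.comp h2) (Poly.const [])) (Poly.const 0)
    (Poly.const (0, 0))

theorem ans_spec {Pr : LinGraph → Prop} {N : List Bool → List Bool} (h : Computes Pr N)
    {G : LinGraph} (hG : Pr G) (hn : 0 < G.n) :
    G.IsFreq 0 (((ans N G).1 : ℝ) / (ans N G).2) := by
  obtain ⟨l, h1, h2, h3⟩ := h G hG
  have h4 := h3 0 (by omega)
  unfold ans
  rw [h1, unbits_bits, Option.getD_some, List.getD_eq_getElem _ _ (by omega)]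
  exact h4

/-- A polynomial-time algorithm for the frequencies of non-reentrant unitary graphs would give a
polynomial-time algorithm for every function in `#P`. -/
theorem collapse_sharpP {N : List Bool → List Bool} (hN : PolyTime N)
    (h : Computes (fun G => Nice G ∧ G.NonReentrant) N) : ∀ f, SharpP f → FP f := by
  rintro f ⟨V, p, hV, hf⟩
  obtain ⟨g, hg, hgs⟩ := parsimonious hV p
  have hg' : Poly g := PC.comp hg pc_raw
  have hQ : Poly (fun x => QQ (g x)) := poly_QQ.comp hg'
  have ha := poly_ans hN (mkGraph_poly true (poly_cm.comp hg'))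
  have hres : Poly (fun x => (3 * QQ (g x) - QQ (g x) * (ans N (mkGraph true (cm (g x)))).2 /
      (ans N (mkGraph true (cm (g x)))).1) / 2) :=
    Poly.div (Poly.sub (Poly.mul (Poly.const 3) hQ) (Poly.div (Poly.mul hQ (Poly.snd ha))
      (Poly.fst ha))) (Poly.const 2)
  have hfx : ∀ x, f x = (3 * QQ (g x) - QQ (g x) * (ans N (mkGraph true (cm (g x)))).2 /
      (ans N (mkGraph true (cm (g x)))).1) / 2 := by
    intro x
    have h1 := ans_spec h (G := mkGraph true (cm (g x)))
      ⟨nice_mk (cm_ok _) (fun _ => cm_loop _), nonReentrant_mk _⟩ (by rw [n_mkGraph]; omega)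
    have h2 := h1.unique (freq_satCount (g x))
    have h3 := h1.1
    rw [hf x, ← hgs x]
    have h4 := satCount_le (g x)
    have h5 := QQ_pos (g x)
    generalize ans N (mkGraph true (cm (g x))) = y at h2 h3 ⊢
    obtain ⟨a, b⟩ := y
    simp only at h2 h3 ⊢
    set S := satCount (g x)
    set Q := QQ (g x)
    have hb : 0 < b := by
      rcases Nat.eq_zero_or_pos b with h | h
      · rw [h] at h3
        simp at h3
      · exact h
    have ha0 : 0 < a := by
      rcases Nat.eq_zero_or_pos a with h | h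
      · rw [h] at h3
        simp at h3
      · exact h
    have hpos : 0 < 3 * Q - 2 * S := by omega
    have hpos' : (0 : ℝ) < ((3 * Q - 2 * S : ℕ) : ℝ) := by exact_mod_cast hpos
    have hb' : (0 : ℝ) < b := by exact_mod_cast hb
    rw [div_eq_div_iff hb'.ne' hpos'.ne'] at h2
    have h6 : a * (3 * Q - 2 * S) = Q * b := by exact_mod_cast h2
    rw [← h6, Nat.mul_div_cancel_left _ ha0]
    omega
  unfold FP
  refine PC.toPolyTime ?_
  have h1 : PC (fun x : List Bool => x) (bits : List Bool → List Bool) (fun x => (f x).bits) :=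
    PC.comp (g := fun x => (f x).bits) (f := fun x => x)
      ((hres.congr fun x => (hfx x).symm).natBits) PC.rawIn
  exact PC.comp (g := fun x => x) (f := fun x => (f x).bits) pc_raw h1

/-- A polynomial-time algorithm for the frequencies of unitary graphs would give `P = PSPACE`. -/
theorem collapse_pspace {N : List Bool → List Bool} (hN : PolyTime N)
    (h : Computes Nice N) : ∀ L, InPSPACE L → InP L := by
  intro L hL
  obtain ⟨f, hf, hfx⟩ := hard_pspace hL
  have ha := poly_ans hN hf
  have htest : Poly (fun x => decide (3 * (ans N (f x)).1 < (ans N (f x)).2)) :=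
    Poly.decide_lt (Poly.mul (Poly.const 3) (Poly.fst ha)) (Poly.snd ha)
  refine ⟨fun x => [decide (3 * (ans N (f x)).1 < (ans N (f x)).2)], polyTime_of_poly htest,
    fun x => ?_⟩
  have h1 := ans_spec h (hfx x).1 (hfx x).2.1
  rw [(hfx x).2.2 _ h1]
  have h3 := h1.1
  simp only [List.cons.injEq, and_true, decide_eq_true_eq] at h3 ⊢
  generalize ans N (f x) = y at h3 ⊢
  obtain ⟨a, b⟩ := y
  simp only at h3 ⊢
  have hb : 0 < b := by
    rcases Nat.eq_zero_or_pos b with h | h
    · rw [h] at h3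
      simp at h3
    · exact h
  have hb' : (0 : ℝ) < b := by exact_mod_cast hb
  rw [div_lt_div_iff₀ hb' (by norm_num)]
  constructor
  · intro h
    have : (3 * a : ℝ) < b := by linarith
    exact_mod_cast this
  · intro h
    have : (3 * a : ℝ) < b := by exact_mod_cast h
    linarith

end Pool.Agent.NPC.LG535
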