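import Pool.Agent.R535.LG.PspaceB

/-!
# The graph is computed in polynomial time
-/

namespace Pool.Agent.NPC.LG535

open Pool.Agent.NPC Pool.Agent.H623R2.PS

/-- The code of a move. -/
def Mv.code (m : Mv) : ℕ × ℕ × ℕ × ℕ := (m.M, m.r, m.c, m.p)

theorem Mv.code_injective : Function.Injective Mv.code := by
  rintro ⟨⟩ ⟨⟩ h
  simp only [Mv.code, Prod.mk.injEq] at h
  obtain ⟨rfl, rfl, rfl, rfl⟩ := h
  rfl

instance : TEnc Mv := ⟨fun e => toT e.code, fun _ _ h => Mv.code_injective (TEnc.inj h)⟩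

variable {α β : Type} [TEnc α] [TEnc β]

theorem mv_mk {f1 f2 f3 f4 : α → ℕ} (h1 : Poly f1) (h2 : Poly f2) (h3 : Poly f3)
    (h4 : Poly f4) : Poly (fun a => (⟨f1 a, f2 a, f3 a, f4 a⟩ : Mv)) :=
  Poly.of_toT (Poly.toT' (Poly.pair h1 (Poly.pair h2 (Poly.pair h3 h4))))

theorem mv_code : Poly Mv.code := Poly.of_toT (Poly.toT' (Poly.id : Poly (fun m : Mv => m)))

theorem mv_M {f : α → Mv} (hf : Poly f) : Poly (fun a => (f a).M) :=
  Poly.fst (mv_code.comp hf)

theorem mv_r {f : α → Mv} (hf : Poly f) : Poly (fun a => (f a).r) :=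
  Poly.fst (Poly.snd (mv_code.comp hf))

theorem mv_c {f : α → Mv} (hf : Poly f) : Poly (fun a => (f a).c) :=
  Poly.fst (Poly.snd (Poly.snd (mv_code.comp hf)))

theorem mv_p {f : α → Mv} (hf : Poly f) : Poly (fun a => (f a).p) :=
  Poly.snd (Poly.snd (Poly.snd (mv_code.comp hf)))

theorem arc_mk {f1 f2 f3 : α → ℕ} {f4 : α → ℤ} {f5 : α → ℕ} {f6 : α → ℤ} (h1 : Poly f1)
    (h2 : Poly f2) (h3 : Poly f3) (h4 : Poly f4) (h5 : Poly f5) (h6 : Poly f6) :
    Poly (fun a => (⟨f1 a, f2 a, f3 a, f4 a, f5 a, f6 a⟩ : Arc)) :=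
  Poly.of_toT (Poly.toT' (Poly.pair h1 (Poly.pair h2 (Poly.pair h3 (Poly.pair h4
    (Poly.pair h5 h6))))))

theorem graph_mk {f1 : α → List ℕ} {f2 : α → List Arc} (h1 : Poly f1) (h2 : Poly f2) :
    Poly (fun a => (⟨f1 a, f2 a⟩ : LinGraph)) :=
  Poly.of_toT (Poly.toT' (Poly.pair h1 h2))

theorem mkGraph_poly (b : Bool) {mv : α → List Mv} (h : Poly mv) :
    Poly (fun a => mkGraph b (mv a)) := by
  unfold mkGraph
  have hz : Poly (fun a => (mv a).zipIdx) := Poly.zipIdx h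
  refine graph_mk (Poly.cons (Poly.const 1) (Poly.map (F := fun _ (m : Mv) => m.p) h
    (mv_p (Poly.snd Poly.id)))) (Poly.cons (Poly.const _) (Poly.flatMap
      (F := fun _ (x : Mv × ℕ) => mvArcs b x.1 x.2) hz ?_))
  have hm : Poly (fun y : α × (Mv × ℕ) => y.2.1) := Poly.fst (Poly.snd Poly.id)
  have hi : Poly (fun y : α × (Mv × ℕ) => y.2.2 + 1) :=
    Poly.add (Poly.snd (Poly.snd Poly.id)) (Poly.const 1)
  have hrM : Poly (fun y : α × (Mv × ℕ) => (y.2.1.r : ℤ) - y.2.1.M) :=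
    Poly.isub (Poly.natCast (mv_r hm)) (Poly.natCast (mv_M hm))
  have h1 : Poly (fun y : α × (Mv × ℕ) =>
      (⟨0, y.2.2 + 1, y.2.1.M, (y.2.1.r : ℤ) - y.2.1.M, 1, 0⟩ : Arc)) :=
    arc_mk (Poly.const _) hi (mv_M hm) hrM (Poly.const _) (Poly.const _)
  have h2 : Poly (fun y : α × (Mv × ℕ) =>
      (⟨y.2.2 + 1, 0, 1, 0, y.2.1.M, (y.2.1.r : ℤ) - y.2.1.M + y.2.1.c⟩ : Arc)) :=
    arc_mk hi (Poly.const _) (Poly.const _) (Poly.const _) (mv_M hm)
      (Poly.iadd hrM (Poly.natCast (mv_c hm)))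
  have h3 : Poly (fun y : α × (Mv × ℕ) =>
      (⟨y.2.2 + 1, y.2.2 + 1, 1, 0, 1, 1⟩ : Arc)) :=
    arc_mk hi hi (Poly.const _) (Poly.const _) (Poly.const _) (Poly.const _)
  unfold mvArcs
  refine Poly.append (Poly.cons h1 (Poly.cons h2 (Poly.const []))) ?_
  cases b
  · simp only [Bool.false_eq_true, if_false]
    exact Poly.const _
  · simp only [if_true]
    exact Poly.cons h3 (Poly.const [])

theorem tab_poly {L : α → List ℕ} {f : α → ℕ → Option β} (hL : Poly L)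
    (hf : Poly (fun x : α × ℕ => f x.1 x.2)) : Poly (fun a => tab (L a) (f a)) := by
  unfold tab
  refine Poly.flatMap (F := fun a t => (f a t).elim [] fun b => [(t, b)]) hL ?_
  refine Poly.optElim (h := fun (x : α × ℕ) b => [(x.2, b)]) hf (Poly.const []) ?_
  exact Poly.cons (Poly.pair (Poly.snd (Poly.fst Poly.id)) (Poly.snd Poly.id)) (Poly.const [])

theorem mvOf_poly {N K : α → ℕ} (hN : UPoly N) (hK : UPoly K) {g : α → List (ℕ × ℕ × ℕ)}
    (hg : Poly g) (bonus : ℕ) : Poly (fun a => mvOf (crt (N a) (K a)) (g a) bonus) := by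
  have h1 : Poly (fun a => (g a).map fun y => (y.1, y.2.1)) :=
    Poly.map (F := fun _ (y : ℕ × ℕ × ℕ) => (y.1, y.2.1)) hg
      (Poly.pair (Poly.fst (Poly.snd Poly.id)) (Poly.fst (Poly.snd (Poly.snd Poly.id))))
  have h2 : Poly (fun a => (g a).map fun y => (y.1, y.2.2 + (crt (N a) (K a)).p y.1 - y.2.1)) := by
    refine Poly.map (F := fun a (y : ℕ × ℕ × ℕ) =>
      (y.1, y.2.2 + (crt (N a) (K a)).p y.1 - y.2.1)) hg ?_
    have hp : Poly (fun x : α × (ℕ × ℕ × ℕ) => pr (N x.1) (K x.1) x.2.1) :=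
      pr_poly (hN.comp (Poly.fst Poly.id)) (hK.comp (Poly.fst Poly.id))
        (Poly.fst (Poly.snd Poly.id))
    exact Poly.pair (Poly.fst (Poly.snd Poly.id)) (Poly.sub (Poly.add
      (Poly.snd (Poly.snd (Poly.snd Poly.id))) hp) (Poly.fst (Poly.snd (Poly.snd Poly.id))))
  have h3 : Poly (fun a => (crt (N a) (K a)).Q + (crt (N a) (K a)).cmb
      ((g a).map fun y => (y.1, y.2.2 + (crt (N a) (K a)).p y.1 - y.2.1))) :=
    Poly.add (Qprod_poly hN hK) (cmb_poly hN hK h2)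
  exact mv_mk (md_poly hN hK h1) (rs_poly hN hK h1) h3
    (Poly.add (Poly.sub (Poly.mul (Poly.const 3) h3) (Poly.const 1)) (Poly.const bonus))

section rs

variable {S : α → RS} (hS : Poly S) (hV : UPoly fun a => (S a).1)

include hS hV

theorem len_u' : UPoly (fun a => (S a).2.1.length) :=
  UPoly.length (Poly.fst (Poly.snd hS))

theorem N_u : UPoly (fun a => (S a).2.1.length + 1) := UPoly.add (len_u' hS hV) (UPoly.const 1)

theorem K_u : UPoly (fun a => (S a).1 + (S a).2.1.length + 1) :=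
  UPoly.add (UPoly.add hV (len_u' hS hV)) (UPoly.const 1)

theorem lkR_poly {R : α → Rule} {t : α → ℕ} (hR : Poly R) (ht : Poly t) :
    Poly (fun a => lkR (R a) (t a)) := by
  unfold lkR
  refine Poly.optMap_fp (h := fun _ y => Prod.snd y) (Poly.head? (Poly.filter
    (p := fun a (y : ℕ × ℕ × ℕ) => decide (y.1 = t a)) hR ?_)) (Poly.snd (Poly.snd Poly.id))
  exact Poly.decide_eq (Poly.fst (Poly.snd Poly.id)) (ht.comp (Poly.fst Poly.id))

theorem lkF_poly {F : α → List (ℕ × ℕ)} {t : α → ℕ} (hF : Poly F) (ht : Poly t) :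
    Poly (fun a => lkF (F a) (t a)) := by
  unfold lkF
  refine Poly.optMap_fp (h := fun _ y => Prod.snd y) (Poly.head? (Poly.filter
    (p := fun a (y : ℕ × ℕ) => decide (y.1 = t a)) hF ?_)) (Poly.snd (Poly.snd Poly.id))
  exact Poly.decide_eq (Poly.fst (Poly.snd Poly.id)) (ht.comp (Poly.fst Poly.id))

theorem tabR_poly {R : α → Rule} (hR : Poly R) :
    Poly (fun a => tab (List.range (S a).2.1.length) (lkR (R a))) := by
  refine tab_poly (f := fun a t => lkR (R a) t) (len_u' hS hV).range ?_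
  have h1 : Poly (fun x : α × ℕ => S x.1) := hS.comp (Poly.fst Poly.id)
  exact lkR_poly h1 (hV.comp (Poly.fst Poly.id)) (hR.comp (Poly.fst Poly.id)) (Poly.snd Poly.id)

theorem tabF_poly :
    Poly (fun a => tab (List.range (S a).2.1.length) (lkF (S a).2.2.2)) := by
  refine tab_poly (f := fun a t => lkF (S a).2.2.2 t) (len_u' hS hV).range ?_
  have h1 : Poly (fun x : α × ℕ => S x.1) := hS.comp (Poly.fst Poly.id)
  exact lkF_poly h1 (hV.comp (Poly.fst Poly.id)) (Poly.snd (Poly.snd (Poly.snd h1)))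
    (Poly.snd Poly.id)

theorem okR_poly {R : α → Rule} (hR : Poly R) : Poly (fun a => okR (S a) (R a)) := by
  unfold okR
  refine Poly.all (p := fun a (y : ℕ × ℕ × ℕ) => decide (y.2.1 < (S a).1) &&
    decide (y.2.2 < (S a).1)) (tabR_poly hS hV hR) ?_
  have hV' : Poly (fun x : α × (ℕ × ℕ × ℕ) => (S x.1).1) := hV.toPoly.comp (Poly.fst Poly.id)
  exact Poly.and (Poly.decide_lt (Poly.fst (Poly.snd (Poly.snd Poly.id))) hV')
    (Poly.decide_lt (Poly.snd (Poly.snd (Poly.snd Poly.id))) hV')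

theorem okF_poly : Poly (fun a => okF (S a)) := by
  unfold okF
  refine Poly.all (p := fun a (y : ℕ × ℕ) => decide (y.2 < (S a).1)) (tabF_poly hS hV) ?_
  have hV' : Poly (fun x : α × (ℕ × ℕ) => (S x.1).1) := hV.toPoly.comp (Poly.fst Poly.id)
  exact Poly.decide_lt (Poly.snd (Poly.snd Poly.id)) hV'

theorem mvs_poly : Poly (fun a => mvs (S a)) := by
  unfold mvs
  have hT : Poly (fun a => (S a).2.1.length) := (len_u' hS hV).toPoly
  refine Poly.append ?_ (Poly.append ?_ ?_)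
  · refine Poly.map (F := fun a R => mvOf (dat (S a)) (gR (S a) R) 0)
      (Poly.filter (p := fun a R => okR (S a) R) (Poly.fst (Poly.snd (Poly.snd hS))) ?_) ?_
    · exact okR_poly (hS.comp (Poly.fst Poly.id)) (hV.comp (Poly.fst Poly.id))
        (Poly.snd Poly.id)
    · have hS1 : Poly (fun x : α × Rule => S x.1) := hS.comp (Poly.fst Poly.id)
      have hV1 : UPoly (fun x : α × Rule => (S x.1).1) := hV.comp (Poly.fst Poly.id)
      refine mvOf_poly (N_u hS1 hV1) (K_u hS1 hV1) ?_ 0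
      unfold gR
      exact Poly.cons (Poly.pair (hT.comp (Poly.fst Poly.id)) (Poly.const _))
        (tabR_poly hS1 hV1 (Poly.snd Poly.id))
  · refine Poly.ite (Poly.decide_bool (okF_poly hS hV)) (Poly.cons ?_ (Poly.const []))
      (Poly.const [])
    refine mvOf_poly (N_u hS hV) (K_u hS hV) ?_ 1
    unfold gF
    refine Poly.cons (Poly.pair hT (Poly.pair (Poly.const 0) (Poly.mod (Poly.const 1)
      (Poly.add hT (Poly.const 1))))) (Poly.map (F := fun _ (y : ℕ × ℕ) => (y.1, y.2, y.2))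
        (tabF_poly hS hV) ?_)
    exact Poly.pair (Poly.fst (Poly.snd Poly.id)) (Poly.pair (Poly.snd (Poly.snd Poly.id))
      (Poly.snd (Poly.snd Poly.id)))
  · refine Poly.flatMap (F := fun a j => (List.range (S a).1).map fun v =>
      mvOf (dat (S a)) (gZ (S a) j v) 0) (len_u' hS hV).range ?_
    refine Poly.map (F := fun (x : α × ℕ) v => mvOf (dat (S x.1)) (gZ (S x.1) x.2 v) 0)
      (hV.comp (Poly.fst Poly.id)).range ?_
    have hS1 : Poly (fun x : (α × ℕ) × ℕ => S x.1.1) := hS.comp (Poly.fst (Poly.fst Poly.id))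
    have hV1 : UPoly (fun x : (α × ℕ) × ℕ => (S x.1.1).1) := hV.comp (Poly.fst (Poly.fst Poly.id))
    have hT1 : Poly (fun x : (α × ℕ) × ℕ => (S x.1.1).2.1.length) :=
      hT.comp (Poly.fst (Poly.fst Poly.id))
    have hj : Poly (fun x : (α × ℕ) × ℕ => x.1.2) := Poly.snd (Poly.fst Poly.id)
    refine mvOf_poly (N_u hS1 hV1) (K_u hS1 hV1) ?_ 0
    unfold gZ
    refine Poly.cons (Poly.pair hT1 (Poly.pair (Poly.add hj (Poly.const 1)) (Poly.mod
      (Poly.add hj (Poly.const 2)) (Poly.add hT1 (Poly.const 1))))) (Poly.cons (Poly.pair hj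
      (Poly.pair (Poly.snd Poly.id) (Poly.getD (Poly.fst (Poly.snd hS1)) hj (Poly.const 0))))
      (Poly.const []))

end rs

end Pool.Agent.NPC.LG535
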