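import Pool.Agent.R535.LG.Freq
import Pool.Agent.R535.LG.CrtPoly
import Pool.Agent.H623R2.PS.TM

/-!
# Rule systems and linear graphs
-/

namespace Pool.Agent.NPC.LG535

open Pool.Agent.NPC Filter Topology Pool.Agent.H623R2.PS

/-! ### tables -/

/-- The table of a partial function on a list. -/
def tab {β : Type} (L : List ℕ) (f : ℕ → Option β) : List (ℕ × β) :=
  L.flatMap fun t => (f t).elim [] fun b => [(t, b)]

theorem mem_tab {β : Type} {L : List ℕ} {f : ℕ → Option β} {t : ℕ} {b : β} :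
    (t, b) ∈ tab L f ↔ t ∈ L ∧ f t = some b := by
  unfold tab
  rw [List.mem_flatMap]
  constructor
  · rintro ⟨s, hs, h⟩
    rcases hf : f s with _ | c
    · simp [hf] at h
    · simp only [hf, Option.elim_some, List.mem_singleton, Prod.mk.injEq] at h
      obtain ⟨rfl, rfl⟩ := h
      exact ⟨hs, hf⟩
  · rintro ⟨h1, h2⟩
    exact ⟨t, h1, by simp [h2]⟩

theorem tab_sublist {β : Type} (L : List ℕ) (f : ℕ → Option β) :
    ((tab L f).map Prod.fst).Sublist L := by
  induction L with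
  | nil => simp [tab]
  | cons t L ih =>
    unfold tab at *
    rw [List.flatMap_cons, List.map_append]
    rcases f t with _ | b
    · simpa using ih.trans (List.sublist_cons_self t L)
    · simpa using ih

/-! ### moves -/

/-- The move which tests and changes the given tokens. -/
def mvOf {N : ℕ} (D : Crt N) (g : List (ℕ × ℕ × ℕ)) (bonus : ℕ) : Mv :=
  ⟨D.md (g.map fun y => (y.1, y.2.1)), D.rs (g.map fun y => (y.1, y.2.1)),
    D.Q + D.cmb (g.map fun y => (y.1, y.2.2 + D.p y.1 - y.2.1)),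
    3 * (D.Q + D.cmb (g.map fun y => (y.1, y.2.2 + D.p y.1 - y.2.1))) - 1 + bonus⟩

section

variable {N : ℕ} (D : Crt N) {g : List (ℕ × ℕ × ℕ)}

theorem wf_map (hg : Crt.Wf N g) (f : ℕ × ℕ × ℕ → ℕ) :
    Crt.Wf N (g.map fun y => (y.1, f y)) := by
  obtain ⟨h1, h2⟩ := hg
  constructor
  · intro y hy
    obtain ⟨z, hz, rfl⟩ := List.mem_map.1 hy
    exact h1 z hz
  · rw [List.map_map]
    exact h2

theorem mvOf_ok (hg : Crt.Wf N g) (bonus : ℕ) : (mvOf D g bonus).Ok := by
  have h1 := (wf_map hg fun y => y.2.1).1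
  have hQ := D.Q_pos
  refine ⟨D.md_pos h1, D.rs_pos h1, D.rs_le h1, ?_, ?_⟩
  · simp only [mvOf]
    omega
  · simp only [mvOf]
    omega

theorem mvOf_gain (D : Crt N) (g : List (ℕ × ℕ × ℕ)) (bonus : ℕ) :
    1 + ((mvOf D g bonus).p : ℝ) = 3 * (mvOf D g bonus).c + bonus := by
  have hQ := D.Q_pos
  have : 1 + (mvOf D g bonus).p = 3 * (mvOf D g bonus).c + bonus := by
    simp only [mvOf]
    omega
  exact_mod_cast this

theorem mvOf_test (hg : Crt.Wf N g) {bonus n : ℕ} :
    n ≡ (mvOf D g bonus).r [MOD (mvOf D g bonus).M] ↔ ∀ y ∈ g, n ≡ y.2.1 [MOD D.p y.1] := by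
  simp only [mvOf]
  rw [D.modEq_rs (wf_map hg _)]
  constructor
  · intro h y hy
    exact h (y.1, y.2.1) (List.mem_map.2 ⟨y, hy, rfl⟩)
  · intro h y hy
    obtain ⟨z, hz, rfl⟩ := List.mem_map.1 hy
    exact h z hz

theorem mvOf_new (hg : Crt.Wf N g) {bonus n : ℕ} (hle : ∀ y ∈ g, y.2.1 ≤ D.p y.1)
    (hn : ∀ y ∈ g, n ≡ y.2.1 [MOD D.p y.1]) {y : ℕ × ℕ × ℕ} (hy : y ∈ g) :
    n + (mvOf D g bonus).c ≡ y.2.2 [MOD D.p y.1] := by
  simp only [mvOf]
  have h1 := D.cmb_of_mem (wf_map hg fun y => y.2.2 + D.p y.1 - y.2.1)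
    (List.mem_map.2 ⟨y, hy, rfl⟩)
  have h2 : D.Q ≡ 0 [MOD D.p y.1] := (Nat.modEq_zero_iff_dvd).2 (D.dvd_Q (hg.1 y hy))
  have h3 := (hn y hy).add (h2.add h1)
  refine h3.trans ?_
  have h4 := hle y hy
  simp only [zero_add]
  rw [show y.2.1 + (y.2.2 + D.p y.1 - y.2.1) = y.2.2 + D.p y.1 by omega]
  simp [Nat.ModEq]

theorem mvOf_same (hg : Crt.Wf N g) {bonus n t : ℕ} (ht : t < N) (h : t ∉ g.map Prod.fst) :
    n + (mvOf D g bonus).c ≡ n [MOD D.p t] := by
  simp only [mvOf]
  have h1 : D.cmb (g.map fun y => (y.1, y.2.2 + D.p y.1 - y.2.1)) ≡ 0 [MOD D.p t] := by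
    refine D.cmb_of_notMem (wf_map hg _).1 ht ?_
    rw [List.map_map]
    exact h
  have h2 : D.Q ≡ 0 [MOD D.p t] := (Nat.modEq_zero_iff_dvd).2 (D.dvd_Q ht)
  simpa using (Nat.ModEq.refl n).add (h2.add h1)

end

/-! ### lookups -/

/-- The entry of a rule for the token `t`. -/
def lkR (R : Rule) (t : ℕ) : Option (ℕ × ℕ) :=
  ((R.filter fun y => decide (y.1 = t)).head?).map Prod.snd

/-- The requirement for the token `t`. -/
def lkF (F : List (ℕ × ℕ)) (t : ℕ) : Option ℕ :=
  ((F.filter fun y => decide (y.1 = t)).head?).map Prod.snd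

theorem tok_none {V : ℕ} {R : Rule} {t v : ℕ} (h : lkR R t = none) : tok V R t v = v := by
  unfold tok
  unfold lkR at h
  rw [Option.map_eq_none_iff] at h
  rw [h]
  by_cases hv : v = V <;> simp [hv]

theorem tok_some {V : ℕ} {R : Rule} {t v : ℕ} {a : ℕ × ℕ} (hv : v ≠ V) (h : lkR R t = some a) :
    tok V R t v = if v = a.1 then a.2 else V := by
  unfold tok
  unfold lkR at h
  rw [Option.map_eq_some_iff] at h
  obtain ⟨y, hy, rfl⟩ := h
  rw [hy]
  simp [hv]

theorem tok_dead {V : ℕ} {R : Rule} {t : ℕ} : tok V R t V = V := by simp [tok]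

theorem foldl_dead {V t : ℕ} (w : List Rule) : w.foldl (fun v R => tok V R t v) V = V := by
  induction w with
  | nil => rfl
  | cons R w ih => rw [List.foldl_cons, tok_dead, ih]

theorem lkR_mem {R : Rule} {t : ℕ} {a : ℕ × ℕ} (h : lkR R t = some a) : (t, a) ∈ R := by
  unfold lkR at h
  rw [Option.map_eq_some_iff] at h
  obtain ⟨y, hy, rfl⟩ := h
  have h1 := List.mem_of_mem_head? hy
  rw [List.mem_filter, decide_eq_true_eq] at h1
  obtain ⟨h1, rfl⟩ := h1
  exact h1

theorem okf_iff {V : ℕ} {F : List (ℕ × ℕ)} {t v : ℕ} :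
    okf V F t v = true ↔ v ≠ V ∧ ∀ a, lkF F t = some a → v = a := by
  unfold okf lkF
  generalize (F.filter fun y => decide (y.1 = t)).head? = o
  rcases o with _ | y
  · simp
  · simp

/-! ### the moves of a rule system -/

/-- The data. -/
def dat (S : RS) : Crt (S.2.1.length + 1) := crt (S.2.1.length + 1) (S.1 + S.2.1.length + 1)

/-- The tokens tested and changed by a rule. -/
def gR (S : RS) (R : Rule) : List (ℕ × ℕ × ℕ) :=
  (S.2.1.length, 0, 0) :: tab (List.range S.2.1.length) (lkR R)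

/-- The tokens tested by the final test. -/
def gF (S : RS) : List (ℕ × ℕ × ℕ) :=
  (S.2.1.length, 0, 1 % (S.2.1.length + 1)) ::
    (tab (List.range S.2.1.length) (lkF S.2.2.2)).map fun y => (y.1, y.2, y.2)

/-- The reset of the token `j` with value `v`. -/
def gZ (S : RS) (j v : ℕ) : List (ℕ × ℕ × ℕ) :=
  [(S.2.1.length, j + 1, (j + 2) % (S.2.1.length + 1)), (j, v, S.2.1.getD j 0)]

/-- All values are less than `V`. -/
def okR (S : RS) (R : Rule) : Bool :=
  (tab (List.range S.2.1.length) (lkR R)).all fun y => decide (y.2.1 < S.1) && decide (y.2.2 < S.1)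

/-- All values are less than `V`. -/
def okF (S : RS) : Bool :=
  (tab (List.range S.2.1.length) (lkF S.2.2.2)).all fun y => decide (y.2 < S.1)

/-- The moves. -/
def mvs (S : RS) : List Mv :=
  (S.2.2.1.filter fun R => okR S R).map (fun R => mvOf (dat S) (gR S R) 0) ++
    ((if okF S = true then [mvOf (dat S) (gF S) 1] else []) ++
      (List.range S.2.1.length).flatMap fun j =>
        (List.range S.1).map fun v => mvOf (dat S) (gZ S j v) 0)

theorem mem_mvs {S : RS} {m : Mv} : m ∈ mvs S ↔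
    (∃ R ∈ S.2.2.1, okR S R = true ∧ m = mvOf (dat S) (gR S R) 0) ∨
    (okF S = true ∧ m = mvOf (dat S) (gF S) 1) ∨
    ∃ j < S.2.1.length, ∃ v < S.1, m = mvOf (dat S) (gZ S j v) 0 := by
  unfold mvs
  rw [List.mem_append, List.mem_append]
  refine or_congr ?_ (or_congr ?_ ?_)
  · rw [List.mem_map]
    constructor
    · rintro ⟨R, hR, rfl⟩
      rw [List.mem_filter] at hR
      exact ⟨R, hR.1, hR.2, rfl⟩
    · rintro ⟨R, h1, h2, rfl⟩
      exact ⟨R, List.mem_filter.2 ⟨h1, h2⟩, rfl⟩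
  · by_cases h : okF S = true
    · simp [h]
    · simp [h]
  · rw [List.mem_flatMap]
    constructor
    · rintro ⟨j, hj, h⟩
      obtain ⟨v, hv, rfl⟩ := List.mem_map.1 h
      exact ⟨j, List.mem_range.1 hj, v, List.mem_range.1 hv, rfl⟩
    · rintro ⟨j, hj, v, hv, rfl⟩
      exact ⟨j, List.mem_range.2 hj, List.mem_map.2 ⟨v, List.mem_range.2 hv, rfl⟩⟩

theorem tab_wf {β : Type} {T : ℕ} {f : ℕ → Option β} {N : ℕ} (h : T ≤ N) :
    Crt.Wf N (tab (List.range T) f) := by
  constructor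
  · rintro ⟨t, b⟩ hy
    rw [mem_tab, List.mem_range] at hy
    exact lt_of_lt_of_le hy.1 h
  · exact List.nodup_range.sublist (tab_sublist _ _)

theorem keys_lt {β : Type} {T : ℕ} {f : ℕ → Option β} {t : ℕ}
    (h : t ∈ (tab (List.range T) f).map Prod.fst) : t < T :=
  List.mem_range.1 ((tab_sublist _ _).subset h)

theorem gR_wf (S : RS) (R : Rule) : Crt.Wf (S.2.1.length + 1) (gR S R) := by
  have h := tab_wf (f := lkR R) (T := S.2.1.length) (N := S.2.1.length + 1) (Nat.le_succ _)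
  constructor
  · intro y hy
    rcases List.mem_cons.1 hy with rfl | hy
    · exact Nat.lt_succ_self _
    · exact h.1 y hy
  · unfold gR
    rw [List.map_cons, List.nodup_cons]
    refine ⟨fun hm => ?_, h.2⟩
    exact absurd (keys_lt hm) (lt_irrefl _)

theorem gF_wf (S : RS) : Crt.Wf (S.2.1.length + 1) (gF S) := by
  have h := tab_wf (f := lkF S.2.2.2) (T := S.2.1.length) (N := S.2.1.length + 1)
    (Nat.le_succ _)
  constructor
  · intro y hy
    rcases List.mem_cons.1 hy with rfl | hy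
    · exact Nat.lt_succ_self _
    · obtain ⟨z, hz, rfl⟩ := List.mem_map.1 hy
      exact h.1 z hz
  · unfold gF
    rw [List.map_cons, List.nodup_cons, List.map_map]
    refine ⟨fun hm => ?_, h.2⟩
    exact absurd (keys_lt hm) (lt_irrefl _)

theorem gZ_wf (S : RS) {j v : ℕ} (hj : j < S.2.1.length) :
    Crt.Wf (S.2.1.length + 1) (gZ S j v) := by
  constructor
  · intro y hy
    simp only [gZ, List.mem_cons, List.not_mem_nil, or_false] at hy
    rcases hy with rfl | rfl
    · exact Nat.lt_succ_self _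
    · exact Nat.lt_succ_of_lt hj
  · simp only [gZ, List.map_cons, List.map_nil, List.nodup_cons, List.mem_cons,
      List.not_mem_nil, or_false, not_false_eq_true, List.nodup_nil, and_true]
    omega

theorem mvs_ok (S : RS) : ∀ m ∈ mvs S, m.Ok := by
  intro m hm
  rcases mem_mvs.1 hm with ⟨R, _, _, rfl⟩ | ⟨_, rfl⟩ | ⟨j, hj, v, _, rfl⟩
  · exact mvOf_ok _ (gR_wf S R) _
  · exact mvOf_ok _ (gF_wf S) _
  · exact mvOf_ok _ (gZ_wf S hj) _

section

variable {S : RS}

theorem lt_p {t : ℕ} (ht : t < S.2.1.length + 1) : S.1 + S.2.1.length + 1 < (dat S).p t :=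
  K_lt_p ht

theorem mod_of_modEq {t n v : ℕ} (ht : t < S.2.1.length + 1)
    (hv : v ≤ S.1 + S.2.1.length + 1) (h : n ≡ v [MOD (dat S).p t]) : n % (dat S).p t = v := by
  have h1 : n % (dat S).p t = v % (dat S).p t := h
  rw [h1, Nat.mod_eq_of_lt (lt_of_le_of_lt hv (lt_p ht))]

theorem modEq_of_mod {t n v : ℕ} (h : n % (dat S).p t = v) : n ≡ v [MOD (dat S).p t] := by
  rw [← h]
  exact (Nat.mod_modEq _ _).symm

/-- The effect of a rule move. -/
theorem rule_move {R : Rule} (hok : okR S R = true) {n : ℕ}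
    (h0 : n % (dat S).p S.2.1.length = 0)
    (hm : ∀ t < S.2.1.length, ∀ a, lkR R t = some a → n % (dat S).p t = a.1) :
    n ≡ (mvOf (dat S) (gR S R) 0).r [MOD (mvOf (dat S) (gR S R) 0).M] ∧
    (n + (mvOf (dat S) (gR S R) 0).c) % (dat S).p S.2.1.length = 0 ∧
    ∀ t < S.2.1.length, (∀ a, lkR R t = some a →
        (n + (mvOf (dat S) (gR S R) 0).c) % (dat S).p t = a.2) ∧
      (lkR R t = none → (n + (mvOf (dat S) (gR S R) 0).c) % (dat S).p t = n % (dat S).p t) := by
  have hwf := gR_wf S R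
  have hall : ∀ t a, t < S.2.1.length → lkR R t = some a → a.1 < S.1 ∧ a.2 < S.1 := by
    intro t a ht ha
    have := List.all_eq_true.1 hok (t, a) (mem_tab.2 ⟨List.mem_range.2 ht, ha⟩)
    simpa using this
  have htest : ∀ y ∈ gR S R, n ≡ y.2.1 [MOD (dat S).p y.1] := by
    intro y hy
    rcases List.mem_cons.1 hy with rfl | hy
    · exact modEq_of_mod h0
    · obtain ⟨t, a⟩ := y
      rw [mem_tab, List.mem_range] at hy
      exact modEq_of_mod (hm t hy.1 a hy.2)
  have hle : ∀ y ∈ gR S R, y.2.1 ≤ (dat S).p y.1 := by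
    intro y hy
    rcases List.mem_cons.1 hy with rfl | hy
    · exact Nat.zero_le _
    · obtain ⟨t, a⟩ := y
      rw [mem_tab, List.mem_range] at hy
      have h1 := (hall t a hy.1 hy.2).1
      have h2 := lt_p (S := S) (t := t) (by omega)
      simp only
      omega
  refine ⟨(mvOf_test (dat S) hwf).2 htest, ?_, fun t ht => ⟨fun a ha => ?_, fun hnone => ?_⟩⟩
  · exact mod_of_modEq (Nat.lt_succ_self _) (Nat.zero_le _)
      (mvOf_new (dat S) hwf hle htest (y := (S.2.1.length, 0, 0)) (by simp [gR]))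
  · have h1 := (hall t a ht ha).2
    exact mod_of_modEq (by omega) (by omega)
      (mvOf_new (dat S) hwf hle htest (y := (t, a))
        (List.mem_cons_of_mem _ (mem_tab.2 ⟨List.mem_range.2 ht, ha⟩)))
  · refine mvOf_same (dat S) hwf (by omega) ?_
    intro hmem
    simp only [gR, List.map_cons, List.mem_cons] at hmem
    rcases hmem with h | h
    · omega
    · obtain ⟨⟨t', a⟩, h1, h2⟩ := List.mem_map.1 h
      simp only at h2
      subst h2
      rw [mem_tab, hnone] at h1
      simp at h1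

/-- The effect of the final move. -/
theorem final_move (hok : okF S = true) {n : ℕ}
    (h0 : n % (dat S).p S.2.1.length = 0)
    (hm : ∀ t < S.2.1.length, ∀ a, lkF S.2.2.2 t = some a → n % (dat S).p t = a) :
    n ≡ (mvOf (dat S) (gF S) 1).r [MOD (mvOf (dat S) (gF S) 1).M] ∧
    (n + (mvOf (dat S) (gF S) 1).c) % (dat S).p S.2.1.length = 1 % (S.2.1.length + 1) ∧
    ∀ t < S.2.1.length, (n + (mvOf (dat S) (gF S) 1).c) % (dat S).p t = n % (dat S).p t := by
  have hwf := gF_wf S
  have hall : ∀ t a, t < S.2.1.length → lkF S.2.2.2 t = some a → a < S.1 := by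
    intro t a ht ha
    have := List.all_eq_true.1 hok (t, a) (mem_tab.2 ⟨List.mem_range.2 ht, ha⟩)
    simpa using this
  have hform : ∀ y ∈ gF S, y = (S.2.1.length, 0, 1 % (S.2.1.length + 1)) ∨
      ∃ t a, t < S.2.1.length ∧ lkF S.2.2.2 t = some a ∧ y = (t, a, a) := by
    intro y hy
    rcases List.mem_cons.1 hy with rfl | hy
    · exact Or.inl rfl
    · obtain ⟨⟨t, a⟩, hz, rfl⟩ := List.mem_map.1 hy
      rw [mem_tab, List.mem_range] at hz
      exact Or.inr ⟨t, a, hz.1, hz.2, rfl⟩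
  have htest : ∀ y ∈ gF S, n ≡ y.2.1 [MOD (dat S).p y.1] := by
    intro y hy
    rcases hform y hy with rfl | ⟨t, a, h1, h2, rfl⟩
    · exact modEq_of_mod h0
    · exact modEq_of_mod (hm t h1 a h2)
  have hle : ∀ y ∈ gF S, y.2.1 ≤ (dat S).p y.1 := by
    intro y hy
    rcases hform y hy with rfl | ⟨t, a, h1, h2, rfl⟩
    · exact Nat.zero_le _
    · have h3 := hall t a h1 h2
      have h4 := lt_p (S := S) (t := t) (by omega)
      simp only
      omega
  refine ⟨(mvOf_test (dat S) hwf).2 htest, ?_, fun t ht => ?_⟩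
  · refine mod_of_modEq (Nat.lt_succ_self _) ?_
      (mvOf_new (dat S) hwf hle htest (y := (S.2.1.length, 0, 1 % (S.2.1.length + 1)))
        (by simp [gF]))
    have : 1 % (S.2.1.length + 1) < S.2.1.length + 1 := Nat.mod_lt _ (Nat.succ_pos _)
    omega
  · rcases hf : lkF S.2.2.2 t with _ | a
    · refine mvOf_same (dat S) hwf (by omega) ?_
      intro hmem
      obtain ⟨y, hy, h2⟩ := List.mem_map.1 hmem
      rcases hform y hy with rfl | ⟨t', a, h3, h4, rfl⟩
      · simp only at h2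
        omega
      · simp only at h2
        subst h2
        rw [hf] at h4
        cases h4
    · rw [hm t ht a hf]
      exact mod_of_modEq (by omega) (by have := hall t a ht hf; omega)
        (mvOf_new (dat S) hwf hle htest (y := (t, a, a))
          (List.mem_cons_of_mem _ (List.mem_map.2 ⟨(t, a),
            mem_tab.2 ⟨List.mem_range.2 ht, hf⟩, rfl⟩)))

/-- The effect of a reset move. -/
theorem reset_move (hS : RSwf S) {j v n : ℕ} (hj : j < S.2.1.length) (hv : v < S.1)
    (h0 : n % (dat S).p S.2.1.length = j + 1) (hm : n % (dat S).p j = v) :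
    n ≡ (mvOf (dat S) (gZ S j v) 0).r [MOD (mvOf (dat S) (gZ S j v) 0).M] ∧
    (n + (mvOf (dat S) (gZ S j v) 0).c) % (dat S).p S.2.1.length =
      (j + 2) % (S.2.1.length + 1) ∧
    (n + (mvOf (dat S) (gZ S j v) 0).c) % (dat S).p j = S.2.1.getD j 0 ∧
    ∀ t < S.2.1.length, t ≠ j →
      (n + (mvOf (dat S) (gZ S j v) 0).c) % (dat S).p t = n % (dat S).p t := by
  have hwf := gZ_wf S (v := v) hj
  have hform : ∀ y ∈ gZ S j v, y = (S.2.1.length, j + 1, (j + 2) % (S.2.1.length + 1)) ∨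
      y = (j, v, S.2.1.getD j 0) := by
    intro y hy
    simpa [gZ] using hy
  have htest : ∀ y ∈ gZ S j v, n ≡ y.2.1 [MOD (dat S).p y.1] := by
    intro y hy
    rcases hform y hy with rfl | rfl
    · exact modEq_of_mod h0
    · exact modEq_of_mod hm
  have hle : ∀ y ∈ gZ S j v, y.2.1 ≤ (dat S).p y.1 := by
    intro y hy
    rcases hform y hy with rfl | rfl
    · have h4 := lt_p (S := S) (t := S.2.1.length) (by omega)
      simp only
      omega
    · have h4 := lt_p (S := S) (t := j) (by omega)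
      simp only
      omega
  refine ⟨(mvOf_test (dat S) hwf).2 htest, ?_, ?_, fun t ht htj => ?_⟩
  · refine mod_of_modEq (Nat.lt_succ_self _) ?_
      (mvOf_new (dat S) hwf hle htest
        (y := (S.2.1.length, j + 1, (j + 2) % (S.2.1.length + 1))) (by simp [gZ]))
    have : (j + 2) % (S.2.1.length + 1) < S.2.1.length + 1 := Nat.mod_lt _ (Nat.succ_pos _)
    omega
  · refine mod_of_modEq (by omega) ?_
      (mvOf_new (dat S) hwf hle htest (y := (j, v, S.2.1.getD j 0)) (by simp [gZ]))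
    have h1 : S.2.1.getD j 0 ∈ S.2.1 := by
      rw [List.getD_eq_getElem _ _ hj]
      exact List.getElem_mem _
    have := hS.1 _ h1
    omega
  · refine mvOf_same (dat S) hwf (by omega) ?_
    intro hmem
    obtain ⟨y, hy, h2⟩ := List.mem_map.1 hmem
    rcases hform y hy with rfl | rfl
    · simp only at h2
      omega
    · exact htj h2.symm

end

end Pool.Agent.NPC.LG535
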