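import Pool.Agent.R535.LG.Pspace

/-!
# The frequency decides the rule system
-/

namespace Pool.Agent.NPC.LG535

open Pool.Agent.NPC Filter Topology Pool.Agent.H623R2.PS

/-! ### the no-case -/

/-- Reachable token vectors. -/
def RC (S : RS) (c : ℕ → ℕ) : Prop :=
  ∃ w : List Rule, (∀ R ∈ w, R ∈ S.2.2.1) ∧
    ∀ t < S.2.1.length, w.foldl (fun v R => tok S.1 R t v) (S.2.1.getD t 0) = c t

/-- The residues which can follow a visit of the final move. -/
def Good (S : RS) (n : ℕ) : Prop :=
  (n % (dat S).p S.2.1.length = 0 ∧ RC S (fun t => n % (dat S).p t) ∧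
    ∀ t < S.2.1.length, n % (dat S).p t < S.1) ∨
  ∃ j < S.2.1.length, n % (dat S).p S.2.1.length = j + 1 ∧
    ∀ t < j, n % (dat S).p t = S.2.1.getD t 0

theorem init_lt {S : RS} (hS : RSwf S) {t : ℕ} (ht : t < S.2.1.length) :
    S.2.1.getD t 0 < S.1 := by
  refine hS.1 _ ?_
  rw [List.getD_eq_getElem _ _ ht]
  exact List.getElem_mem _

theorem adm_no {S : RS} (hS : RSwf S) (hno : ¬ RSyes S) :
    ∃ A : ℕ → ℝ, Adm (mvs S) A ∧ ∀ n, A n ≤ 3 * n + 1 := by
  classical
  set φ : ℕ → ℝ := fun n => if Good S n then 1 else 0 with hφ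
  have hφ0 : ∀ n, 0 ≤ φ n := fun n => by simp only [hφ]; split_ifs <;> norm_num
  have hφ1 : ∀ n, φ n ≤ 1 := fun n => by simp only [hφ]; split_ifs <;> norm_num
  have hmono : ∀ n m, (Good S n → Good S m) → φ n ≤ φ m := by
    intro n m h
    simp only [hφ]
    by_cases hn : Good S n
    · rw [if_pos hn, if_pos (h hn)]
    · rw [if_neg hn]
      split_ifs <;> norm_num
  refine ⟨fun n => 3 * n + φ n, ⟨fun n _ => ?_, fun n _ => ?_, fun m hm n hn hmod => ?_⟩,
    fun n => by have := hφ1 n; simp only; linarith⟩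
  · have := hφ0 n
    positivity
  · have h1 := hφ1 n
    have h2 := hφ0 (n + 1)
    push_cast
    linarith
  rcases mem_mvs.1 hm with ⟨R, hR, hokR, rfl⟩ | ⟨hokF, rfl⟩ | ⟨j, hj, v, hv, rfl⟩
  · -- rule moves
    have hg := mvOf_gain (dat S) (gR S R) 0
    have htest := (mvOf_test (dat S) (gR_wf S R)).1 hmod
    have h0 : n % (dat S).p S.2.1.length = 0 :=
      mod_of_modEq (Nat.lt_succ_self _) (Nat.zero_le _)
        (htest (S.2.1.length, 0, 0) (by simp [gR]))
    have hall : ∀ t a, t < S.2.1.length → lkR R t = some a → a.1 < S.1 ∧ a.2 < S.1 := by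
      intro t a ht ha
      have := List.all_eq_true.1 hokR (t, a) (mem_tab.2 ⟨List.mem_range.2 ht, ha⟩)
      simpa using this
    have hm' : ∀ t < S.2.1.length, ∀ a, lkR R t = some a → n % (dat S).p t = a.1 := by
      intro t ht a ha
      exact mod_of_modEq (by omega) (by have := (hall t a ht ha).1; omega)
        (htest (t, a) (List.mem_cons_of_mem _ (mem_tab.2 ⟨List.mem_range.2 ht, ha⟩)))
    obtain ⟨-, e1, e2⟩ := rule_move hokR h0 hm'
    set c := (mvOf (dat S) (gR S R) 0).c
    have hmon : φ n ≤ φ (n + c) := by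
      refine hmono _ _ fun hgood => ?_
      rcases hgood with ⟨-, ⟨w, hw, hc⟩, hlive⟩ | ⟨j, hj, hj2, _⟩
      · refine Or.inl ⟨e1, ⟨w ++ [R], ?_, ?_⟩, ?_⟩
        · intro R' hR'
          rcases List.mem_append.1 hR' with h | h
          · exact hw R' h
          · rw [List.mem_singleton] at h
            rw [h]
            exact hR
        · intro t ht
          rw [List.foldl_append, hc t ht, List.foldl_cons, List.foldl_nil]
          have hne : n % (dat S).p t ≠ S.1 := (hlive t ht).ne
          rcases hl : lkR R t with _ | a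
          · rw [tok_none hl]
            exact ((e2 t ht).2 hl).symm
          · rw [tok_some hne hl, if_pos (hm' t ht a hl)]
            exact ((e2 t ht).1 a hl).symm
        · intro t ht
          rcases hl : lkR R t with _ | a
          · rw [(e2 t ht).2 hl]
            exact hlive t ht
          · rw [(e2 t ht).1 a hl]
            exact (hall t a ht hl).2
      · omega
    simp only
    push_cast at hg ⊢
    linarith
  · -- the final move
    have hg := mvOf_gain (dat S) (gF S) 1
    have htest := (mvOf_test (dat S) (gF_wf S)).1 hmod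
    have h0 : n % (dat S).p S.2.1.length = 0 :=
      mod_of_modEq (Nat.lt_succ_self _) (Nat.zero_le _)
        (htest (S.2.1.length, 0, 1 % (S.2.1.length + 1)) (by simp [gF]))
    have hall : ∀ t a, t < S.2.1.length → lkF S.2.2.2 t = some a → a < S.1 := by
      intro t a ht ha
      have := List.all_eq_true.1 hokF (t, a) (mem_tab.2 ⟨List.mem_range.2 ht, ha⟩)
      simpa using this
    have hm' : ∀ t < S.2.1.length, ∀ a, lkF S.2.2.2 t = some a → n % (dat S).p t = a := by
      intro t ht a ha
      exact mod_of_modEq (by omega) (by have := hall t a ht ha; omega)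
        (htest (t, a, a) (List.mem_cons_of_mem _ (List.mem_map.2
          ⟨(t, a), mem_tab.2 ⟨List.mem_range.2 ht, ha⟩, rfl⟩)))
    obtain ⟨-, e1, e2⟩ := final_move hokF h0 hm'
    set c := (mvOf (dat S) (gF S) 1).c
    have hT : 0 < S.2.1.length := by
      rcases Nat.eq_zero_or_pos S.2.1.length with h | h
      · exact absurd ⟨[], by simp, fun t ht => by omega⟩ hno
      · exact h
    have h1 : ¬ Good S n := by
      rintro (⟨-, ⟨w, hw, hc⟩, hlive⟩ | ⟨j, hj, hj2, _⟩)
      · refine hno ⟨w, hw, fun t ht => ?_⟩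
        rw [hc t ht, okf_iff]
        exact ⟨(hlive t ht).ne, fun a ha => hm' t ht a ha⟩
      · omega
    have h2 : Good S (n + c) := by
      refine Or.inr ⟨0, hT, ?_, fun t ht => by omega⟩
      rw [e1]
      exact Nat.mod_eq_of_lt (by omega)
    have h3 : φ n = 0 := by simp only [hφ]; rw [if_neg h1]
    have h4 : φ (n + c) = 1 := by simp only [hφ]; rw [if_pos h2]
    simp only
    rw [h3, h4]
    push_cast at hg ⊢
    linarith
  · -- the reset moves
    have hg := mvOf_gain (dat S) (gZ S j v) 0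
    have htest := (mvOf_test (dat S) (gZ_wf S hj)).1 hmod
    have h0 : n % (dat S).p S.2.1.length = j + 1 :=
      mod_of_modEq (Nat.lt_succ_self _) (by omega)
        (htest (S.2.1.length, j + 1, (j + 2) % (S.2.1.length + 1)) (by simp [gZ]))
    have hv' : n % (dat S).p j = v :=
      mod_of_modEq (by omega) (by omega) (htest (j, v, S.2.1.getD j 0) (by simp [gZ]))
    obtain ⟨-, e1, e2, e3⟩ := reset_move hS hj hv h0 hv'
    set c := (mvOf (dat S) (gZ S j v) 0).c
    have hmon : φ n ≤ φ (n + c) := by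
      refine hmono _ _ fun hgood => ?_
      rcases hgood with ⟨h, _⟩ | ⟨j', hj', hj2, hinit⟩
      · omega
      · obtain rfl : j' = j := by omega
        have hinit' : ∀ t < j' + 1, (n + c) % (dat S).p t = S.2.1.getD t 0 := by
          intro t ht
          rcases Nat.lt_succ_iff_lt_or_eq.1 ht with h | h
          · rw [e3 t (by omega) (by omega)]
            exact hinit t h
          · rw [h]
            exact e2
        rcases Nat.lt_or_ge (j' + 1) S.2.1.length with h | h
        · refine Or.inr ⟨j' + 1, h, ?_, hinit'⟩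
          rw [e1]
          exact Nat.mod_eq_of_lt (by omega)
        · have hjT : j' + 1 = S.2.1.length := by omega
          refine Or.inl ⟨?_, ⟨[], by simp, fun t ht => ?_⟩, fun t ht => ?_⟩
          · rw [e1, show j' + 2 = S.2.1.length + 1 by omega, Nat.mod_self]
          · exact (hinit' t (by omega)).symm
          · rw [hinit' t (by omega)]
            exact init_lt hS ht
    simp only
    push_cast at hg ⊢
    linarith

/-! ### the yes-case -/

/-- `n` encodes the phase `ph` and the token vector `c`. -/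
def Encd (S : RS) (ph : ℕ) (c : ℕ → ℕ) (n : ℕ) : Prop :=
  n % (dat S).p S.2.1.length = ph ∧ ∀ t < S.2.1.length, n % (dat S).p t = c t

/-- `d` leads from `(ph, c)` to `(ph', c')`, with surplus `g`. -/
def Leads (S : RS) (B : ℕ → ℝ) (ph : ℕ) (c : ℕ → ℕ) (ph' : ℕ) (c' : ℕ → ℕ) (g : ℝ) (d : ℕ) : Prop :=
  ∀ n, 1 ≤ n → Encd S ph c n → Encd S ph' c' (n + d) ∧ B n + 3 * d + g ≤ B (n + d)

theorem Leads.trans {S : RS} {B : ℕ → ℝ} {p1 p2 p3 : ℕ} {c1 c2 c3 : ℕ → ℕ} {g g' : ℝ} {d d' : ℕ}
    (h : Leads S B p1 c1 p2 c2 g d) (h' : Leads S B p2 c2 p3 c3 g' d') :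
    Leads S B p1 c1 p3 c3 (g + g') (d + d') := by
  intro n hn he
  obtain ⟨h1, h2⟩ := h n hn he
  obtain ⟨h3, h4⟩ := h' (n + d) (by omega) h1
  rw [← add_assoc]
  refine ⟨h3, ?_⟩
  push_cast
  linarith

theorem leads_rules {S : RS} (hS : RSwf S) {B : ℕ → ℝ} (hB : Adm (mvs S) B) (w : List Rule) :
    ∀ c : ℕ → ℕ, (∀ R ∈ w, R ∈ S.2.2.1) → (∀ t < S.2.1.length, c t < S.1) →
      (∀ t < S.2.1.length, w.foldl (fun v R => tok S.1 R t v) (c t) ≠ S.1) →
      (∀ t < S.2.1.length, w.foldl (fun v R => tok S.1 R t v) (c t) < S.1) ∧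
      ∃ d, Leads S B 0 c 0 (fun t => w.foldl (fun v R => tok S.1 R t v) (c t)) 0 d := by
  induction w with
  | nil =>
    intro c _ hc _
    refine ⟨hc, 0, fun n hn he => ?_⟩
    simp only [List.foldl_nil, add_zero, Nat.cast_zero, mul_zero]
    exact ⟨he, le_rfl⟩
  | cons R w ih =>
    intro c hw hc hlive
    have hRw : R ∈ S.2.2.1 := hw R (by simp)
    have hne : ∀ t < S.2.1.length, tok S.1 R t (c t) ≠ S.1 := by
      intro t ht h
      have := hlive t ht
      rw [List.foldl_cons, h, foldl_dead] at this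
      exact this rfl
    have hentry : ∀ t < S.2.1.length, ∀ a, lkR R t = some a → c t = a.1 ∧ a.2 < S.1 ∧
        tok S.1 R t (c t) = a.2 := by
      intro t ht a ha
      have h1 := hne t ht
      have h2 := tok_some (hc t ht).ne ha
      by_cases h3 : c t = a.1
      · rw [if_pos h3] at h2
        refine ⟨h3, ?_, h2⟩
        have h4 := hS.2 R hRw _ (lkR_mem ha)
        rw [h2] at h1
        simp only at h4
        omega
      · rw [if_neg h3] at h2
        exact absurd h2 h1
    have hokR : okR S R = true := by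
      refine List.all_eq_true.2 ?_
      rintro ⟨t, a⟩ hy
      rw [mem_tab, List.mem_range] at hy
      obtain ⟨h1, h2, -⟩ := hentry t hy.1 a hy.2
      have h3 := hc t hy.1
      simp only [Bool.and_eq_true, decide_eq_true_eq]
      omega
    have hc' : ∀ t < S.2.1.length, tok S.1 R t (c t) < S.1 := by
      intro t ht
      rcases hl : lkR R t with _ | a
      · rw [tok_none hl]
        exact hc t ht
      · obtain ⟨_, h2, h3⟩ := hentry t ht a hl
        rw [h3]
        exact h2
    obtain ⟨h1, d, hd⟩ := ih (fun t => tok S.1 R t (c t)) (fun R' h => hw R' (by simp [h])) hc'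
      (fun t ht => hlive t ht)
    refine ⟨h1, (mvOf (dat S) (gR S R) 0).c + d, ?_⟩
    have hfirst : Leads S B 0 c 0 (fun t => tok S.1 R t (c t)) 0
        (mvOf (dat S) (gR S R) 0).c := by
      intro n hn he
      obtain ⟨e0, e1, e2⟩ := rule_move hokR he.1 (fun t ht a ha => by
        rw [he.2 t ht]
        exact (hentry t ht a ha).1)
      refine ⟨⟨e1, fun t ht => ?_⟩, ?_⟩
      · rcases hl : lkR R t with _ | a
        · rw [(e2 t ht).2 hl, he.2 t ht]
          exact (tok_none hl).symm
        · rw [(e2 t ht).1 a hl]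
          exact (hentry t ht a hl).2.2.symm
      · have hg := mvOf_gain (dat S) (gR S R) 0
        have := hB.2.2 _ (mem_mvs.2 (Or.inl ⟨R, hRw, hokR, rfl⟩)) n hn e0
        push_cast at hg
        linarith
    have := hfirst.trans hd
    rw [add_zero] at this
    exact this

theorem leads_resets {S : RS} (hS : RSwf S) {B : ℕ → ℝ} (hB : Adm (mvs S) B) (c : ℕ → ℕ)
    (hc : ∀ t < S.2.1.length, c t < S.1) (j : ℕ) (hj : j ≤ S.2.1.length) :
    ∃ d, Leads S B (1 % (S.2.1.length + 1)) c ((j + 1) % (S.2.1.length + 1))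
      (fun t => if t < j then S.2.1.getD t 0 else c t) 0 d := by
  induction j with
  | zero =>
    refine ⟨0, fun n hn he => ?_⟩
    simp only [add_zero, Nat.cast_zero, mul_zero, zero_add, Nat.not_lt_zero, if_false]
    exact ⟨he, le_rfl⟩
  | succ j ih =>
    obtain ⟨d, hd⟩ := ih (by omega)
    have hjT : j < S.2.1.length := by omega
    refine ⟨d + (mvOf (dat S) (gZ S j (c j)) 0).c, ?_⟩
    have hstep : Leads S B ((j + 1) % (S.2.1.length + 1))
        (fun t => if t < j then S.2.1.getD t 0 else c t) ((j + 1 + 1) % (S.2.1.length + 1))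
        (fun t => if t < j + 1 then S.2.1.getD t 0 else c t) 0
        (mvOf (dat S) (gZ S j (c j)) 0).c := by
      intro n hn he
      have h0 : n % (dat S).p S.2.1.length = j + 1 := by
        rw [he.1]
        exact Nat.mod_eq_of_lt (by omega)
      have h1 : n % (dat S).p j = c j := by
        rw [he.2 j hjT]
        simp
      obtain ⟨e0, e1, e2, e3⟩ := reset_move hS hjT (hc j hjT) h0 h1
      refine ⟨⟨e1, fun t ht => ?_⟩, ?_⟩
      · by_cases htj : t = j
        · subst htj
          rw [e2]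
          simp
        · rw [e3 t ht htj, he.2 t ht]
          by_cases h : t < j
          · simp only
            rw [if_pos h, if_pos (by omega)]
          · simp only
            rw [if_neg h, if_neg (by omega)]
      · have hg := mvOf_gain (dat S) (gZ S j (c j)) 0
        have := hB.2.2 _ (mem_mvs.2 (Or.inr (Or.inr ⟨j, hjT, c j, hc j hjT, rfl⟩))) n hn e0
        push_cast at hg
        linarith
    have := hd.trans hstep
    rw [add_zero] at this
    exact this

theorem leads_yes {S : RS} (hS : RSwf S) (hyes : RSyes S) {B : ℕ → ℝ} (hB : Adm (mvs S) B) :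
    ∃ d, 1 ≤ d ∧ Leads S B 0 (fun t => S.2.1.getD t 0) 0 (fun t => S.2.1.getD t 0) 1 d := by
  obtain ⟨w, hw, hok⟩ := hyes
  simp only [okf_iff] at hok
  obtain ⟨h1, d1, hd1⟩ := leads_rules hS hB w (fun t => S.2.1.getD t 0) hw
    (fun t ht => init_lt hS ht) (fun t ht => (hok t ht).1)
  set c : ℕ → ℕ := fun t => w.foldl (fun v R => tok S.1 R t v) (S.2.1.getD t 0) with hc
  have hokF : okF S = true := by
    refine List.all_eq_true.2 ?_
    rintro ⟨t, a⟩ hy
    rw [mem_tab, List.mem_range] at hy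
    have h2 := (hok t hy.1).2 a hy.2
    have h3 := h1 t hy.1
    simp only [decide_eq_true_eq]
    rw [← h2]
    exact h3
  have hfin : Leads S B 0 c (1 % (S.2.1.length + 1)) c 1 (mvOf (dat S) (gF S) 1).c := by
    intro n hn he
    obtain ⟨e0, e1, e2⟩ := final_move hokF he.1 (fun t ht a ha => by
      rw [he.2 t ht]
      exact (hok t ht).2 a ha)
    refine ⟨⟨e1, fun t ht => ?_⟩, ?_⟩
    · rw [e2 t ht, he.2 t ht]
    · have hg := mvOf_gain (dat S) (gF S) 1
      have := hB.2.2 _ (mem_mvs.2 (Or.inr (Or.inl ⟨hokF, rfl⟩))) n hn e0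
      push_cast at hg
      linarith
  obtain ⟨d3, hd3⟩ := leads_resets hS hB c h1 S.2.1.length le_rfl
  have h4 := (hd1.trans hfin).trans hd3
  refine ⟨d1 + (mvOf (dat S) (gF S) 1).c + d3, ?_, fun n hn he => ?_⟩
  · have := (mvOf_ok (dat S) (gF_wf S) 1).2.2.2.1
    omega
  · obtain ⟨⟨h5, h6⟩, h7⟩ := h4 n hn he
    refine ⟨⟨?_, fun t ht => ?_⟩, ?_⟩
    · rw [h5, Nat.mod_self]
    · rw [h6 t ht]
      simp only
      rw [if_pos ht]
    · linarith

/-! ### the frequency -/

theorem rate_le {S : RS} (hS : RSwf S) (hno : ¬ RSyes S) {ℓ : ℝ}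
    (h : Tendsto (fun n : ℕ => (mkGraph false (mvs S)).earliest 0 n / n) atTop (𝓝 ℓ)) :
    ℓ ≤ 3 := by
  obtain ⟨A, hA, hle⟩ := adm_no hS hno
  have h2 : Tendsto (fun n : ℕ => 3 + (1 : ℝ) / n) atTop (𝓝 (3 + 0)) :=
    tendsto_const_nhds.add (tendsto_const_div_atTop_nhds_zero_nat 1)
  rw [add_zero] at h2
  refine le_of_tendsto_of_tendsto h h2 ((eventually_ge_atTop 1).mono fun n hn => ?_)
  have h3 := earliest_zero_le (b := false) (mvs_ok S) (by simp) hA hn
  have h4 := hle n
  have hn' : (0 : ℝ) < n := by exact_mod_cast hn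
  simp only
  rw [div_le_iff₀ hn', add_mul, div_mul_cancel₀ _ hn'.ne']
  linarith

theorem rate_gt {S : RS} (hS : RSwf S) (hyes : RSyes S) {ℓ : ℝ}
    (h : Tendsto (fun n : ℕ => (mkGraph false (mvs S)).earliest 0 n / n) atTop (𝓝 ℓ)) :
    3 < ℓ := by
  set B := (mkGraph false (mvs S)).earliest 0 with hBdef
  have hB : Adm (mvs S) B := adm_earliest (b := false) (mvs_ok S) (by simp)
  obtain ⟨d, hd1, hd⟩ := leads_yes hS hyes hB
  obtain ⟨n₀, hn₀, he₀⟩ := (dat S).exists_modEq
    (fun t => if t = S.2.1.length then 0 else S.2.1.getD t 0)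
  have henc : Encd S 0 (fun t => S.2.1.getD t 0) n₀ := by
    constructor
    · have := he₀ S.2.1.length (by omega)
      rw [if_pos rfl] at this
      exact mod_of_modEq (Nat.lt_succ_self _) (Nat.zero_le _) this
    · intro t ht
      have := he₀ t (by omega)
      rw [if_neg (by omega)] at this
      have h2 := init_lt hS ht
      exact mod_of_modEq (v := S.2.1.getD t 0) (by omega) (by omega) this
  have hk : ∀ k : ℕ, Encd S 0 (fun t => S.2.1.getD t 0) (n₀ + d * k) ∧
      (k : ℝ) * (3 * d + 1) ≤ B (n₀ + d * k) := by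
    intro k
    induction k with
    | zero =>
      refine ⟨by simpa using henc, ?_⟩
      have := hB.1 n₀ hn₀
      simpa using this
    | succ k ih =>
      obtain ⟨h1, h2⟩ := hd (n₀ + d * k) (by omega) ih.1
      rw [show n₀ + d * (k + 1) = n₀ + d * k + d by ring]
      refine ⟨h1, ?_⟩
      push_cast
      have := ih.2
      linarith
  have hlin : Tendsto (fun k : ℕ => n₀ + d * k) atTop atTop := by
    refine tendsto_atTop.2 fun N => (eventually_ge_atTop N).mono fun k hk => ?_
    have : 1 * k ≤ d * k := Nat.mul_le_mul_right _ hd1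
    omega
  have hd' : (0 : ℝ) < d := by exact_mod_cast hd1
  have h2 : Tendsto (fun k : ℕ => ((n₀ + d * k : ℕ) : ℝ) / k) atTop (𝓝 (d : ℝ)) := by
    have h3 : Tendsto (fun k : ℕ => (d : ℝ) + (n₀ : ℝ) / k) atTop (𝓝 (d + 0)) :=
      tendsto_const_nhds.add (tendsto_const_div_atTop_nhds_zero_nat _)
    rw [add_zero] at h3
    refine h3.congr' ((eventually_ge_atTop 1).mono fun k hk => ?_)
    have hk' : (k : ℝ) ≠ 0 := by
      have : (0 : ℝ) < k := by exact_mod_cast hk
      exact this.ne'
    push_cast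
    field_simp
    ring
  have h3 : Tendsto (fun k : ℕ => B (n₀ + d * k) / ((n₀ + d * k : ℕ) : ℝ) *
      (((n₀ + d * k : ℕ) : ℝ) / k)) atTop (𝓝 (ℓ * d)) := (h.comp hlin).mul h2
  have h4 : 3 * (d : ℝ) + 1 ≤ ℓ * d := by
    refine ge_of_tendsto h3 ((eventually_ge_atTop 1).mono fun k hk1 => ?_)
    have hk' : (0 : ℝ) < k := by exact_mod_cast hk1
    have hpos : (0 : ℝ) < ((n₀ + d * k : ℕ) : ℝ) := by exact_mod_cast (by omega)
    rw [div_mul_div_cancel₀ hpos.ne', le_div_iff₀ hk']
    have := (hk k).2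
    linarith
  nlinarith

/-- The frequency of the task `0` decides the rule system. -/
theorem freq_iff {S : RS} (hS : RSwf S) {φ : ℝ} (h : (mkGraph false (mvs S)).IsFreq 0 φ) :
    φ < 1 / 3 ↔ RSyes S := by
  obtain ⟨ℓ, hℓ, hr⟩ := exists_rate (b := false) (mvs_ok S) (by simp)
  have h1 := h.unique (freq_zero (b := false) (mvs_ok S) (by simp) hℓ hr)
  rw [h1]
  have h3 : ℓ⁻¹ < 1 / 3 ↔ 3 < ℓ := by
    rw [one_div]
    exact inv_lt_inv₀ hℓ (by norm_num)
  rw [h3]
  constructor
  · intro hlt
    by_contra hno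
    have := rate_le hS hno hr
    linarith
  · intro hyes
    exact rate_gt hS hyes hr

end Pool.Agent.NPC.LG535
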