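import Pool.Agent.R535.LG.Count

/-!
# The graph of a formula: its frequency counts the satisfying assignments
-/

namespace Pool.Agent.NPC.LG535

open Pool.Agent.NPC Pool.Agent.NPC.Cnt Filter Topology

/-- The occurrences of the variables. -/
def occs (φ : CNF ℕ) : List ℕ := φ.flatten.map Prod.snd

/-- The variables, without repetition. -/
noncomputable def vs (φ : CNF ℕ) : List ℕ :=
  ((occs φ).zipIdx.filter fun q => decide (index (occs φ) q.1 = q.2)).map Prod.fst

theorem mem_occs {φ : CNF ℕ} {v : ℕ} : v ∈ occs φ ↔ v ∈ vars φ := by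
  simp [occs, vars]

theorem mem_vs {φ : CNF ℕ} {v : ℕ} : v ∈ vs φ ↔ v ∈ vars φ := by
  rw [← mem_occs]
  unfold vs
  rw [List.mem_map]
  constructor
  · rintro ⟨⟨x, i⟩, h, rfl⟩
    rw [List.mem_filter, List.mk_mem_zipIdx_iff_getElem?] at h
    exact List.mem_of_getElem? h.1
  · intro h
    refine ⟨(v, index (occs φ) v), ?_, rfl⟩
    rw [List.mem_filter, List.mk_mem_zipIdx_iff_getElem?, decide_eq_true_eq]
    exact ⟨getElem?_index h, rfl⟩

theorem vs_nodup (φ : CNF ℕ) : (vs φ).Nodup := by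
  unfold vs
  refine List.Nodup.map_on ?_ ?_
  · rintro ⟨x, i⟩ h ⟨y, j⟩ h' he
    rw [List.mem_filter, decide_eq_true_eq] at h h'
    simp only at he h h'
    subst he
    rw [← h.2, ← h'.2]
  · refine List.Nodup.filter _ ?_
    have h2 : ((occs φ).zipIdx.map Prod.snd).Nodup := by
      rw [List.zipIdx_map_snd]
      simp [List.nodup_range']
    exact List.Nodup.of_map _ h2

/-- The number of variables. -/
noncomputable def nv (φ : CNF ℕ) : ℕ := (vs φ).length

/-- The data. -/
noncomputable def dt (φ : CNF ℕ) : Crt (nv φ) := crt (nv φ) 2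

/-- The residue falsifying the clause at the variable `t`. -/
noncomputable def req (φ : CNF ℕ) (c : List (Bool × ℕ)) (t : ℕ) : Option ℕ :=
  if (true, (vs φ).getD t 0) ∈ c then some 2 else
    if (false, (vs φ).getD t 0) ∈ c then some 1 else none

/-- The clause contains a literal and its negation. -/
def taut (c : List (Bool × ℕ)) : Bool := c.any fun l => decide ((!l.1, l.2) ∈ c)

/-- The moves of a formula. -/
noncomputable def cm (φ : CNF ℕ) : List Mv :=
  ((List.range (nv φ)).flatMap fun t => ((List.range (Bd (nv φ) 2)).filter fun r =>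
    decide (3 ≤ r) && decide (r ≤ pr (nv φ) 2 t)).map fun r => ⟨pr (nv φ) 2 t, r, 1, 2⟩) ++
  (φ.filter fun c => !taut c).map fun c =>
    ⟨(dt φ).md (tab (List.range (nv φ)) (req φ c)), (dt φ).rs (tab (List.range (nv φ)) (req φ c)),
      1, 2⟩

theorem mem_cm {φ : CNF ℕ} {m : Mv} : m ∈ cm φ ↔
    (∃ t < nv φ, ∃ r, 3 ≤ r ∧ r ≤ (dt φ).p t ∧ m = ⟨(dt φ).p t, r, 1, 2⟩) ∨
    ∃ c ∈ φ, taut c = false ∧ m = ⟨(dt φ).md (tab (List.range (nv φ)) (req φ c)),
      (dt φ).rs (tab (List.range (nv φ)) (req φ c)), 1, 2⟩ := by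
  unfold cm
  rw [List.mem_append]
  refine or_congr ?_ ?_
  · rw [List.mem_flatMap]
    constructor
    · rintro ⟨t, ht, h⟩
      obtain ⟨r, hr, rfl⟩ := List.mem_map.1 h
      rw [List.mem_filter, List.mem_range, Bool.and_eq_true, decide_eq_true_eq,
        decide_eq_true_eq] at hr
      exact ⟨t, List.mem_range.1 ht, r, hr.2.1, hr.2.2, rfl⟩
    · rintro ⟨t, ht, r, h1, h2, rfl⟩
      refine ⟨t, List.mem_range.2 ht, List.mem_map.2 ⟨r, ?_, rfl⟩⟩
      rw [List.mem_filter, List.mem_range, Bool.and_eq_true, decide_eq_true_eq,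
        decide_eq_true_eq]
      exact ⟨lt_of_le_of_lt h2 (pr_prop ht).1, h1, h2⟩
  · rw [List.mem_map]
    constructor
    · rintro ⟨c, hc, rfl⟩
      rw [List.mem_filter, Bool.not_eq_true'] at hc
      exact ⟨c, hc.1, hc.2, rfl⟩
    · rintro ⟨c, h1, h2, rfl⟩
      exact ⟨c, List.mem_filter.2 ⟨h1, by simp [h2]⟩, rfl⟩

theorem p_ge {φ : CNF ℕ} {t : ℕ} (ht : t < nv φ) : 3 ≤ (dt φ).p t := by
  have := K_lt_p (N := nv φ) (K := 2) ht
  exact this

theorem cm_ok (φ : CNF ℕ) : ∀ m ∈ cm φ, m.Ok := by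
  intro m hm
  rcases mem_cm.1 hm with ⟨t, ht, r, h1, h2, rfl⟩ | ⟨c, _, _, rfl⟩
  · have := p_ge ht
    exact ⟨by simp only; omega, by simp only; omega, h2, by simp, by simp⟩
  · have h := (tab_wf (f := req φ c) (T := nv φ) (N := nv φ) le_rfl).1
    exact ⟨(dt φ).md_pos h, (dt φ).rs_pos h, (dt φ).rs_le h, by simp, by simp⟩

theorem cm_unit (φ : CNF ℕ) : Unit1 (cm φ) := by
  intro m hm
  rcases mem_cm.1 hm with ⟨t, ht, r, h1, h2, rfl⟩ | ⟨c, _, _, rfl⟩ <;> exact ⟨rfl, rfl⟩

theorem cm_loop (φ : CNF ℕ) : ∀ m ∈ cm φ, m.c ≤ m.M := by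
  intro m hm
  have h1 := (cm_unit φ m hm).1
  have h2 := (cm_ok φ m hm).1
  omega

theorem req_le {φ : CNF ℕ} {c : List (Bool × ℕ)} {t v : ℕ} (h : req φ c t = some v) :
    v = 1 ∨ v = 2 := by
  unfold req at h
  split_ifs at h
  · right; exact (Option.some.inj h).symm
  · left; exact (Option.some.inj h).symm

theorem modEq_iff_mod {p n v : ℕ} (hv : v < p) : n ≡ v [MOD p] ↔ n % p = v := by
  unfold Nat.ModEq
  rw [Nat.mod_eq_of_lt hv]

theorem hit_iff {φ : CNF ℕ} {n : ℕ} : Hit (cm φ) n ↔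
    (∃ t < nv φ, n % (dt φ).p t ≠ 1 ∧ n % (dt φ).p t ≠ 2) ∨
    ∃ c ∈ φ, taut c = false ∧ ∀ t < nv φ, ∀ v, req φ c t = some v → n % (dt φ).p t = v := by
  constructor
  · rintro ⟨m, hm, hmod⟩
    rcases mem_cm.1 hm with ⟨t, ht, r, h1, h2, rfl⟩ | ⟨c, hc, hc2, rfl⟩
    · refine Or.inl ⟨t, ht, ?_⟩
      have hp := p_ge ht
      simp only at hmod
      have h3 : n % (dt φ).p t = r % (dt φ).p t := hmod
      rcases Nat.lt_or_ge r ((dt φ).p t) with h | h
      · rw [Nat.mod_eq_of_lt h] at h3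
        omega
      · have : r = (dt φ).p t := le_antisymm h2 h
        rw [this, Nat.mod_self] at h3
        omega
    · refine Or.inr ⟨c, hc, hc2, fun t ht v hv => ?_⟩
      simp only at hmod
      rw [(dt φ).modEq_rs (tab_wf le_rfl)] at hmod
      have h1 := hmod (t, v) (mem_tab.2 ⟨List.mem_range.2 ht, hv⟩)
      have h2 := p_ge ht
      have h3 := req_le hv
      exact (modEq_iff_mod (by omega)).1 h1
  · rintro (⟨t, ht, h1, h2⟩ | ⟨c, hc, hc2, h⟩)
    · have hp := p_ge ht
      have hlt := Nat.mod_lt n (show 0 < (dt φ).p t by omega)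
      by_cases h0 : n % (dt φ).p t = 0
      · refine ⟨_, mem_cm.2 (Or.inl ⟨t, ht, (dt φ).p t, hp, le_rfl, rfl⟩), ?_⟩
        simp only
        unfold Nat.ModEq
        rw [h0, Nat.mod_self]
      · refine ⟨_, mem_cm.2 (Or.inl ⟨t, ht, n % (dt φ).p t, by omega, hlt.le, rfl⟩), ?_⟩
        simp only
        exact (Nat.mod_modEq _ _).symm
    · refine ⟨_, mem_cm.2 (Or.inr ⟨c, hc, hc2, rfl⟩), ?_⟩
      simp only
      rw [(dt φ).modEq_rs (tab_wf le_rfl)]
      rintro ⟨t, v⟩ hy
      rw [mem_tab, List.mem_range] at hy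
      have h2 := p_ge hy.1
      have h3 := req_le hy.2
      exact (modEq_iff_mod (by simp only; omega)).2 (h t hy.1 v hy.2)

theorem add_Q_mod {φ : CNF ℕ} {n t : ℕ} (ht : t < nv φ) :
    (n + (dt φ).Q) % (dt φ).p t = n % (dt φ).p t := by
  obtain ⟨q, hq⟩ := (dt φ).dvd_Q ht
  rw [hq, Nat.add_mul_mod_self_left]

theorem hit_period (φ : CNF ℕ) (n : ℕ) : Hit (cm φ) (n + (dt φ).Q) ↔ Hit (cm φ) n := by
  rw [hit_iff, hit_iff]
  refine or_congr ?_ ?_
  · refine exists_congr fun t => and_congr_right fun ht => ?_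
    rw [add_Q_mod ht]
  · refine exists_congr fun c => and_congr_right fun _ => and_congr_right fun _ => ?_
    refine forall_congr' fun t => forall_congr' fun ht => ?_
    rw [add_Q_mod ht]

/-- The set of variables made true by `n`. -/
noncomputable def trueSet (φ : CNF ℕ) (n : ℕ) : Finset ℕ :=
  (vars φ).filter fun x => n % (dt φ).p (index (vs φ) x) = 1

theorem index_lt' {φ : CNF ℕ} {x : ℕ} (hx : x ∈ vars φ) : index (vs φ) x < nv φ ∧
    (vs φ).getD (index (vs φ) x) 0 = x := by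
  have h := getElem?_index (mem_vs.2 hx)
  obtain ⟨h1, h2⟩ := List.getElem?_eq_some_iff.1 h
  refine ⟨h1, ?_⟩
  rw [List.getD_eq_getElem _ _ h1, h2]

theorem index_vs {φ : CNF ℕ} {t : ℕ} (ht : t < nv φ) : index (vs φ) ((vs φ).getD t 0) = t := by
  have hm : (vs φ).getD t 0 ∈ vs φ := by
    rw [List.getD_eq_getElem _ _ ht]
    exact List.getElem_mem _
  have h3 : (vs φ)[t] = (vs φ).getD t 0 := (List.getD_eq_getElem _ _ ht).symm
  generalize (vs φ).getD t 0 = x at hm h3 ⊢
  have h := getElem?_index hm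
  obtain ⟨h1, h2⟩ := List.getElem?_eq_some_iff.1 h
  exact (List.Nodup.getElem_inj_iff (vs_nodup φ)).1 (h2.trans h3.symm)

theorem getD_mem {φ : CNF ℕ} {t : ℕ} (ht : t < nv φ) : (vs φ).getD t 0 ∈ vars φ := by
  rw [← mem_vs, List.getD_eq_getElem _ _ ht]
  exact List.getElem_mem _

theorem notHit_iff {φ : CNF ℕ} {n : ℕ} : ¬ Hit (cm φ) n ↔
    (∀ t < nv φ, n % (dt φ).p t = 1 ∨ n % (dt φ).p t = 2) ∧ SatBy (trueSet φ n) φ := by
  rw [hit_iff, not_or]
  have h1 : (¬ ∃ t < nv φ, n % (dt φ).p t ≠ 1 ∧ n % (dt φ).p t ≠ 2) ↔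
      ∀ t < nv φ, n % (dt φ).p t = 1 ∨ n % (dt φ).p t = 2 := by
    constructor
    · intro h t ht
      by_contra hcon
      exact h ⟨t, ht, by omega, by omega⟩
    · rintro h ⟨t, ht, h1, h2⟩
      have := h t ht
      omega
  rw [h1]
  refine and_congr_right fun hval => ?_
  have hmem : ∀ x, x ∈ vars φ →
      (x ∈ trueSet φ n ↔ n % (dt φ).p (index (vs φ) x) = 1) := by
    intro x hx
    simp only [trueSet, Finset.mem_filter, hx, true_and]
  constructor
  · intro h c hc
    by_cases ht : taut c = true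
    · obtain ⟨l, hl, hl2⟩ := List.any_eq_true.1 ht
      rw [decide_eq_true_eq] at hl2
      by_cases hd : l.1 = decide (l.2 ∈ trueSet φ n)
      · exact ⟨l, hl, hd⟩
      · refine ⟨(!l.1, l.2), hl2, ?_⟩
        simp only
        cases h1 : l.1 <;> cases h2 : decide (l.2 ∈ trueSet φ n) <;> simp_all
    · rw [Bool.not_eq_true] at ht
      have h2 : ∃ t < nv φ, ∃ v, req φ c t = some v ∧ n % (dt φ).p t ≠ v := by
        by_contra hcon
        refine h ⟨c, hc, ht, fun t ht v hv => ?_⟩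
        by_contra hne
        exact hcon ⟨t, ht, v, hv, hne⟩
      obtain ⟨t, htl, v, hv, hne⟩ := h2
      have h3 := hval t htl
      have h4 := hmem _ (getD_mem htl)
      rw [index_vs htl] at h4
      unfold req at hv
      split_ifs at hv with h5 h6
      · have hv2 : v = 2 := (Option.some.inj hv).symm
        refine ⟨_, h5, ?_⟩
        simp only
        symm
        rw [decide_eq_true_eq, h4]
        omega
      · have hv2 : v = 1 := (Option.some.inj hv).symm
        refine ⟨_, h6, ?_⟩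
        simp only
        symm
        rw [decide_eq_false_iff_not, h4]
        omega
  · rintro h ⟨c, hc, ht, hall⟩
    obtain ⟨⟨b, x⟩, hl, hb⟩ := h c hc
    have hx : x ∈ vars φ := mem_vars.2 ⟨c, hc, b, hl⟩
    obtain ⟨hi, hix⟩ := index_lt' hx
    have h4 := hmem x hx
    have h5 := hall _ hi
    unfold req at h5
    rw [hix] at h5
    cases b
    · have h6 : (true, x) ∉ c := by
        intro h7
        have : taut c = true := List.any_eq_true.2 ⟨_, hl, by simpa using h7⟩
        rw [ht] at this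
        cases this
      have h8 := h5 1 (by rw [if_neg h6, if_pos hl])
      simp only at hb
      have := h4.2 h8
      simp [this] at hb
    · have h8 := h5 2 (by rw [if_pos hl])
      simp only at hb
      have h9 : x ∈ trueSet φ n := by simpa using hb.symm
      rw [h4, h8] at h9
      omega

theorem card_notHit (φ : CNF ℕ) :
    ((Finset.Ico 1 (1 + (dt φ).Q)).filter fun n => ¬ Hit (cm φ) n).card = satCount φ := by
  unfold satCount
  refine Finset.card_bij (fun n _ => trueSet φ n) ?_ ?_ ?_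
  · intro n hn
    rw [Finset.mem_filter, notHit_iff] at hn
    rw [Finset.mem_filter, Finset.mem_powerset]
    exact ⟨Finset.filter_subset _ _, hn.2.2⟩
  · intro n hn m hm h
    rw [Finset.mem_filter, notHit_iff, Finset.mem_Ico] at hn hm
    have h1 : n ≡ m [MOD (dt φ).Q] := by
      refine (dt φ).modEq_Q fun t ht => ?_
      have h2 : (vs φ).getD t 0 ∈ trueSet φ n ↔ (vs φ).getD t 0 ∈ trueSet φ m := by
        have h' : trueSet φ n = trueSet φ m := h
        rw [h']
      simp only [trueSet, Finset.mem_filter, getD_mem ht, true_and, index_vs ht] at h2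
      have h3 := hn.2.1 t ht
      have h4 := hm.2.1 t ht
      unfold Nat.ModEq
      omega
    obtain ⟨q, hq⟩ : (dt φ).Q ∣ max n m - min n m := by
      rcases le_total n m with h' | h'
      · rw [max_eq_right h', min_eq_left h']
        exact (Nat.modEq_iff_dvd' h').1 h1
      · rw [max_eq_left h', min_eq_right h']
        exact (Nat.modEq_iff_dvd' h').1 h1.symm
    have hlt : max n m - min n m < (dt φ).Q := by omega
    rcases Nat.eq_zero_or_pos q with rfl | hq0
    · rw [mul_zero] at hq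
      omega
    · have : (dt φ).Q * 1 ≤ (dt φ).Q * q := Nat.mul_le_mul_left _ hq0
      omega
  · intro S hS
    rw [Finset.mem_filter, Finset.mem_powerset] at hS
    obtain ⟨n₀, hn₀, h⟩ := (dt φ).exists_modEq (fun t => if (vs φ).getD t 0 ∈ S then 1 else 2)
    have hQ := (dt φ).Q_pos
    have hmod : (n₀ - 1) % (dt φ).Q + 1 ≡ n₀ [MOD (dt φ).Q] := by
      have h1 : (n₀ - 1) % (dt φ).Q ≡ n₀ - 1 [MOD (dt φ).Q] := Nat.mod_modEq _ _
      have h2 := h1.add_right 1
      rwa [Nat.sub_add_cancel hn₀] at h2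
    have hres : ∀ t < nv φ, ((n₀ - 1) % (dt φ).Q + 1) % (dt φ).p t =
        if (vs φ).getD t 0 ∈ S then 1 else 2 := by
      intro t ht
      have h1 : (n₀ - 1) % (dt φ).Q + 1 ≡ (if (vs φ).getD t 0 ∈ S then 1 else 2)
          [MOD (dt φ).p t] := (hmod.of_dvd ((dt φ).dvd_Q ht)).trans (h t ht)
      have h2 := p_ge ht
      exact (modEq_iff_mod (by split_ifs <;> omega)).1 h1
    have hset : trueSet φ ((n₀ - 1) % (dt φ).Q + 1) = S := by
      ext x
      simp only [trueSet, Finset.mem_filter]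
      constructor
      · rintro ⟨hx, h1⟩
        obtain ⟨hi, hix⟩ := index_lt' hx
        rw [hres _ hi, hix] at h1
        by_contra hcon
        rw [if_neg hcon] at h1
        omega
      · intro hx
        have hx' := hS.1 hx
        obtain ⟨hi, hix⟩ := index_lt' hx'
        refine ⟨hx', ?_⟩
        rw [hres _ hi, hix, if_pos hx]
    refine ⟨(n₀ - 1) % (dt φ).Q + 1, ?_, hset⟩
    rw [Finset.mem_filter, notHit_iff, Finset.mem_Ico]
    refine ⟨⟨by omega, ?_⟩, fun t ht => ?_, ?_⟩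
    · have := Nat.mod_lt (n₀ - 1) hQ
      omega
    · rw [hres t ht]
      split_ifs <;> simp
    · rw [hset]
      exact hS.2

/-- The period of the graph of a formula. -/
noncomputable def QQ (φ : CNF ℕ) : ℕ := (dt φ).Q

theorem QQ_pos (φ : CNF ℕ) : 0 < QQ φ := (dt φ).Q_pos

theorem satCount_le (φ : CNF ℕ) : satCount φ ≤ QQ φ := by
  rw [← card_notHit]
  refine (Finset.card_filter_le _ _).trans ?_
  rw [Nat.card_Ico]
  unfold QQ
  omega

/-- **The frequency counts the satisfying assignments.** -/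
theorem freq_satCount (φ : CNF ℕ) :
    (mkGraph true (cm φ)).IsFreq 0 (QQ φ / ((3 * QQ φ - 2 * satCount φ : ℕ) : ℝ)) := by
  have h := freq_cnt (b := true) (cm_ok φ) (cm_unit φ) (fun _ => cm_loop φ) (dt φ).Q_pos
    (hit_period φ)
  have h1 := cnt_eq (mv := cm φ) (dt φ).Q
  rw [card_notHit] at h1
  have h2 : cnt (cm φ) (1 + (dt φ).Q) = 3 * QQ φ - 2 * satCount φ := by
    unfold QQ
    omega
  rw [h2] at h
  exact h

theorem nonReentrant_mk (mv : List Mv) : (mkGraph true mv).NonReentrant := by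
  intro i hi
  rw [n_mkGraph] at hi
  rw [mem_arcs]
  rcases i with _ | i
  · exact Or.inl rfl
  · exact Or.inr ⟨i, mv[i], List.getElem?_eq_getElem (by omega), Or.inr (Or.inr ⟨rfl, rfl⟩)⟩

/-! ### polynomial time -/

theorem poly_occs : Poly occs := by
  unfold occs
  fun_prop

theorem poly_vs : Poly vs := by
  unfold vs
  have h1 := poly_occs
  refine Poly.map (F := fun _ (q : ℕ × ℕ) => q.1) (Poly.filter
    (p := fun φ (q : ℕ × ℕ) => decide (index (occs φ) q.1 = q.2)) (Poly.zipIdx h1) ?_)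
    (Poly.fst (Poly.snd Poly.id))
  exact Poly.decide_eq (Poly.index (h1.comp (Poly.fst Poly.id)) (Poly.fst (Poly.snd Poly.id)))
    (Poly.snd (Poly.snd Poly.id))

theorem uPoly_nv : UPoly nv := UPoly.length poly_vs

theorem poly_cm : Poly cm := by
  unfold cm
  have hN := uPoly_nv
  have hK : UPoly (fun _ : CNF ℕ => 2) := UPoly.const 2
  refine Poly.append (Poly.flatMap (F := fun φ t => ((List.range (Bd (nv φ) 2)).filter fun r =>
    decide (3 ≤ r) && decide (r ≤ pr (nv φ) 2 t)).map fun r =>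
      (⟨pr (nv φ) 2 t, r, 1, 2⟩ : Mv)) hN.range ?_)
    (Poly.map (F := fun φ c => (⟨(dt φ).md (tab (List.range (nv φ)) (req φ c)),
      (dt φ).rs (tab (List.range (nv φ)) (req φ c)), 1, 2⟩ : Mv)) (Poly.filter
        (p := fun _ (c : List (Bool × ℕ)) => !taut c) Poly.id ?_) ?_)
  · have hN1 : UPoly (fun x : CNF ℕ × ℕ => nv x.1) := hN.comp (Poly.fst Poly.id)
    have hK1 : UPoly (fun x : CNF ℕ × ℕ => 2) := UPoly.const 2
    refine Poly.map (F := fun (x : CNF ℕ × ℕ) r => (⟨pr (nv x.1) 2 x.2, r, 1, 2⟩ : Mv))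
      (Poly.filter (p := fun (x : CNF ℕ × ℕ) r => decide (3 ≤ r) &&
        decide (r ≤ pr (nv x.1) 2 x.2)) (Bd_poly hN1 hK1).range ?_) ?_
    · exact Poly.and (Poly.decide_le (Poly.const 3) (Poly.snd Poly.id))
        (Poly.decide_le (Poly.snd Poly.id) ((pr_poly hN1 hK1 (Poly.snd Poly.id)).comp
          (Poly.fst Poly.id)))
    · exact mv_mk ((pr_poly hN1 hK1 (Poly.snd Poly.id)).comp (Poly.fst Poly.id))
        (Poly.snd Poly.id) (Poly.const 1) (Poly.const 2)
  · unfold taut
    refine Poly.not (Poly.any (l := fun x : CNF ℕ × List (Bool × ℕ) => x.2)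
      (p := fun x l => decide ((!l.1, l.2) ∈ x.2)) (Poly.snd Poly.id) ?_)
    have h1 : Poly (fun y : (CNF ℕ × List (Bool × ℕ)) × (Bool × ℕ) => (!y.2.1, y.2.2)) :=
      Poly.pair (Poly.not (Poly.fst (Poly.snd Poly.id))) (Poly.snd (Poly.snd Poly.id))
    exact Poly.dec_mem h1 (Poly.snd (Poly.fst Poly.id))
  · have hN1 : UPoly (fun x : CNF ℕ × List (Bool × ℕ) => nv x.1) := hN.comp (Poly.fst Poly.id)
    have hK1 : UPoly (fun x : CNF ℕ × List (Bool × ℕ) => 2) := UPoly.const 2
    have ht : Poly (fun x : CNF ℕ × List (Bool × ℕ) =>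
        tab (List.range (nv x.1)) (req x.1 x.2)) := by
      refine tab_poly (f := fun (x : CNF ℕ × List (Bool × ℕ)) t => req x.1 x.2 t) hN1.range ?_
      unfold req
      have hv : Poly (fun y : (CNF ℕ × List (Bool × ℕ)) × ℕ => (vs y.1.1).getD y.2 0) :=
        Poly.getD (poly_vs.comp (Poly.fst (Poly.fst Poly.id))) (Poly.snd Poly.id) (Poly.const 0)
      have hc : Poly (fun y : (CNF ℕ × List (Bool × ℕ)) × ℕ => y.1.2) :=
        Poly.snd (Poly.fst Poly.id)
      exact Poly.ite (Poly.dec_mem (Poly.pair (Poly.const true) hv) hc) (Poly.const _)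
        (Poly.ite (Poly.dec_mem (Poly.pair (Poly.const false) hv) hc) (Poly.const _)
          (Poly.const _))
    exact mv_mk (md_poly hN1 hK1 ht) (rs_poly hN1 hK1 ht) (Poly.const 1) (Poly.const 2)

theorem poly_QQ : Poly QQ := Qprod_poly uPoly_nv (UPoly.const 2)

end Pool.Agent.NPC.LG535
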